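import Pool.Agent.S9.F.Disc

/-!
# Project S9, block F: links in discs
-/

set_option autoImplicit false
set_option linter.unusedSectionVars false

open Finset

namespace Pool.Agent.S9

open Pool.Agent.H73.GC Pool.Agent.H19.SR

section Link

variable {V : Type} [DecidableEq V] [Fintype V] (G : SimpleGraph V) (t : Finset V)

private theorem Lks_mem {w : V} : w ∈ lkF G t ↔ ∀ v ∈ t, G.Adj v w := by
  unfold lkF
  simp


/-- the simplex of the complex which belongs to the simplex of the link -/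
private noncomputable def Lup (u : Finset {w // w ∈ lkF G t}) : Finset V := t ∪ u.map (Function.Embedding.subtype _)

/-- the simplex of the link -/
private noncomputable def Ldn (u : Finset V) : Finset {w // w ∈ lkF G t} := u.subtype fun w => w ∈ lkF G t

private theorem Lks_dis {w : V} (hw : w ∈ lkF G t) : w ∉ t := fun h =>
  (((Lks_mem G t).1 hw) w h).ne rfl

private theorem Ldn_up (u : Finset {w // w ∈ lkF G t}) : Ldn G t (Lup G t u) = u := by
  ext ⟨w, hw⟩
  unfold Ldn Lup
  rw [mem_subtype, mem_union, mem_map]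
  constructor
  · rintro (h | ⟨x, hx, hxw⟩)
    · exact absurd h (Lks_dis G t hw)
    · have h1 : x = ⟨w, hw⟩ := Subtype.ext hxw
      rw [← h1]
      exact hx
  · intro h
    exact Or.inr ⟨_, h, rfl⟩

private theorem Lup_inj {u u' : Finset {w // w ∈ lkF G t}} (h : Lup G t u = Lup G t u') : u = u' := by
  rw [← Ldn_up G t u, h, Ldn_up]

private theorem mem_Lup {u : Finset {w // w ∈ lkF G t}} {w : V} :
    w ∈ Lup G t u ↔ w ∈ t ∨ ∃ h : w ∈ lkF G t, (⟨w, h⟩ : {w // w ∈ lkF G t}) ∈ u := by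
  unfold Lup
  rw [mem_union, mem_map]
  refine or_congr_right ?_
  constructor
  · rintro ⟨x, hx, rfl⟩
    exact ⟨x.2, hx⟩
  · rintro ⟨h, hx⟩
    exact ⟨_, hx, rfl⟩

private theorem Lup_dn {u : Finset V} (h1 : t ⊆ u) (h2 : ∀ w ∈ u, w ∈ t ∨ w ∈ lkF G t) :
    Lup G t (Ldn G t u) = u := by
  ext w
  rw [mem_Lup]
  unfold Ldn
  constructor
  · rintro (h | ⟨h, h'⟩)
    · exact h1 h
    · exact mem_subtype.1 h'
  · intro h
    rcases h2 w h with h3 | h3
    · exact Or.inl h3
    · exact Or.inr ⟨h3, mem_subtype.2 h⟩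

private theorem Lup_sub (u : Finset {w // w ∈ lkF G t}) : t ⊆ Lup G t u := subset_union_left

private theorem Lks_clq {u : Finset V} (h1 : t ⊆ u) (hu : G.IsClique (u : Set V)) :
    ∀ w ∈ u, w ∈ t ∨ w ∈ lkF G t := by
  intro w hw
  by_cases h : w ∈ t
  · exact Or.inl h
  · refine Or.inr ((Lks_mem G t).2 fun v hv => ?_)
    exact hu (mem_coe.2 (h1 hv)) (mem_coe.2 hw) fun he => h (he ▸ hv)

private theorem Lup_clq (ht : G.IsClique (t : Set V)) {u : Finset {w // w ∈ lkF G t}} :
    G.IsClique (Lup G t u : Set V) ↔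
      (G.comap (Subtype.val : {w // w ∈ lkF G t} → V)).IsClique (u : Set {w // w ∈ lkF G t}) := by
  constructor
  · intro h a ha b hb hab
    exact h (mem_coe.2 ((mem_Lup G t).2 (Or.inr ⟨a.2, mem_coe.1 ha⟩)))
      (mem_coe.2 ((mem_Lup G t).2 (Or.inr ⟨b.2, mem_coe.1 hb⟩))) fun hc => hab (Subtype.ext hc)
  · intro h a ha b hb hab
    rcases (mem_Lup G t).1 (mem_coe.1 ha) with ha | ⟨ha', ha⟩
    · rcases (mem_Lup G t).1 (mem_coe.1 hb) with hb | ⟨hb', hb⟩
      · exact ht (mem_coe.2 ha) (mem_coe.2 hb) hab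
      · exact (Lks_mem G t).1 hb' a ha
    · rcases (mem_Lup G t).1 (mem_coe.1 hb) with hb | ⟨hb', hb⟩
      · exact ((Lks_mem G t).1 ha' b hb).symm
      · exact h (mem_coe.2 ha) (mem_coe.2 hb) fun hc => hab (congrArg Subtype.val hc)

private theorem Lup_card (u : Finset {w // w ∈ lkF G t}) : (Lup G t u).card = t.card + u.card := by
  unfold Lup
  rw [card_union_of_disjoint, card_map]
  rw [disjoint_left]
  intro w hw h
  obtain ⟨x, -, rfl⟩ := mem_map.1 h
  exact Lks_dis G t x.2 hw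

private theorem Lup_mono {u u' : Finset {w // w ∈ lkF G t}} :
    Lup G t u ⊆ Lup G t u' ↔ u ⊆ u' := by
  constructor
  · intro h x hx
    have h1 : x.1 ∈ Lup G t u' := h ((mem_Lup G t).2 (Or.inr ⟨x.2, hx⟩))
    rcases (mem_Lup G t).1 h1 with h2 | ⟨h2, h3⟩
    · exact absurd h2 (Lks_dis G t x.2)
    · exact h3
  · intro h
    exact union_subset_union_right (map_subset_map.2 h)

private theorem Lup_ins (u : Finset {w // w ∈ lkF G t}) (x : {w // w ∈ lkF G t}) :
    Lup G t (insert x u) = insert x.1 (Lup G t u) := by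
  unfold Lup
  rw [map_insert, union_insert]
  rfl

/-- the sums over the complement -/
private theorem Lks_sum (F : Finset V → ZMod 2) (u : Finset {w // w ∈ lkF G t})
    (hF : ∀ w, w ∉ Lup G t u → w ∉ lkF G t → F (insert w (Lup G t u)) = 0) :
    ∑ w ∈ (Lup G t u)ᶜ, F (insert w (Lup G t u)) = ∑ x ∈ uᶜ, F (Lup G t (insert x u)) := by
  symm
  refine sum_bij_ne_zero (fun x _ _ => x.1) ?_ ?_ ?_ ?_
  · intro x hx _
    rw [mem_compl] at hx ⊢
    intro h
    rcases (mem_Lup G t).1 h with h2 | ⟨h2, h3⟩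
    · exact Lks_dis G t x.2 h2
    · exact hx h3
  · intro x _ _ y _ _ h
    exact Subtype.ext h
  · intro w hw hne
    rw [mem_compl] at hw
    have hl : w ∈ lkF G t := by
      by_contra h
      exact hne (hF w hw h)
    refine ⟨⟨w, hl⟩, ?_, ?_, rfl⟩
    · rw [mem_compl]
      intro h
      exact hw ((mem_Lup G t).2 (Or.inr ⟨hl, h⟩))
    · rw [Lup_ins]
      exact hne
  · intro x _ _
    rw [Lup_ins]

open Classical in
/-- the extension of a chain of the link -/
private noncomputable def Lex (f : Finset {w // w ∈ lkF G t} → ZMod 2) (u : Finset V) : ZMod 2 :=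
  if Lup G t (Ldn G t u) = u then f (Ldn G t u) else 0

private theorem Lex_up (f : Finset {w // w ∈ lkF G t} → ZMod 2) (u : Finset {w // w ∈ lkF G t}) :
    Lex G t f (Lup G t u) = f u := by
  unfold Lex
  rw [Ldn_up, if_pos rfl]

private theorem Lex_ne {f : Finset {w // w ∈ lkF G t} → ZMod 2} {u : Finset V}
    (h : Lex G t f u ≠ 0) : ∃ u', u = Lup G t u' ∧ f u' ≠ 0 := by
  unfold Lex at h
  split_ifs at h with h1
  · exact ⟨_, h1.symm, h⟩
  · exact absurd rfl h

/-- cycles -/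
private theorem Lex_cyc {f : Finset {w // w ∈ lkF G t} → ZMod 2} {s : Finset {w // w ∈ lkF G t}} :
    (∀ u, s ⊆ u → ∑ x ∈ uᶜ, f (insert x u) = 0) ↔
      ∀ u, Lup G t s ⊆ u → ∑ w ∈ uᶜ, Lex G t f (insert w u) = 0 := by
  have hkey : ∀ u', ∑ w ∈ (Lup G t u')ᶜ, Lex G t f (insert w (Lup G t u')) =
      ∑ x ∈ u'ᶜ, f (insert x u') := by
    intro u'
    rw [Lks_sum G t (Lex G t f) u']
    · exact sum_congr rfl fun x _ => Lex_up G t f _
    · intro w hw hwl
      by_contra hne
      obtain ⟨u1, h1, -⟩ := Lex_ne G t hne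
      have h2 : w ∈ Lup G t u1 := h1 ▸ mem_insert_self _ _
      rcases (mem_Lup G t).1 h2 with h3 | ⟨h3, -⟩
      · exact hw (Lup_sub G t _ h3)
      · exact hwl h3
  constructor
  · intro h u hu
    by_cases h1 : Lup G t (Ldn G t u) = u
    · rw [← h1, hkey]
      refine h _ ?_
      rw [← Lup_mono G t, h1]
      exact hu
    · refine sum_eq_zero fun w hw => ?_
      by_contra hne
      obtain ⟨u1, h2, -⟩ := Lex_ne G t hne
      refine h1 (Lup_dn G t ((Lup_sub G t s).trans hu) fun x hx => ?_)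
      have h3 : x ∈ Lup G t u1 := h2 ▸ mem_insert_of_mem hx
      rcases (mem_Lup G t).1 h3 with h4 | ⟨h4, -⟩
      · exact Or.inl h4
      · exact Or.inr h4
  · intro h u hu
    rw [← hkey]
    exact h _ ((Lup_mono G t).2 hu)

end Link

/-- **Links in discs are discs**: the cliques `t'` of the link of `t` correspond to the cliques `t ∪ t'` -/
theorem IsDisc.link {V : Type} [DecidableEq V] [Fintype V] {G : SimpleGraph V} {n : ℕ}
    {B : Finset V → Prop} (h : IsDisc G n B) {t : Finset V} (ht : G.IsClique (t : Set V)) :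
    IsDisc (G.comap (Subtype.val : {w // w ∈ lkF G t} → V)) (n - t.card)
      (fun u => B (t ∪ u.map (Function.Embedding.subtype _))) := by
  have htn : t.card ≤ n := h.card_le t ht
  have hsupp : ∀ (s : Finset {w // w ∈ lkF G t}) (j : ℕ) (f : Finset {w // w ∈ lkF G t} → ZMod 2),
      (∀ u, f u ≠ 0 → (G.comap (Subtype.val : {w // w ∈ lkF G t} → V)).IsClique (u : Set {w // w ∈ lkF G t}) ∧
        s ⊆ u ∧ u.card = j) →
      ∀ u, Lex G t f u ≠ 0 → G.IsClique (u : Set V) ∧ Lup G t s ⊆ u ∧ u.card = t.card + j := by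
    intro s j f hf u hu
    obtain ⟨u', rfl, h1⟩ := Lex_ne G t hu
    obtain ⟨h2, h3, h4⟩ := hf u' h1
    exact ⟨(Lup_clq G t ht).2 h2, (Lup_mono G t).2 h3, by rw [Lup_card, h4]⟩
  refine ⟨fun s hs => (Lup_clq G t ht).1 (h.clique _ hs), fun s s' hs hss => h.down _ _ hs
    ((Lup_mono G t).2 hss), fun s hs => ?_, fun s hs => ?_, fun s hs j hj f hf hc => ?_,
    fun s hs hBs f hf => ?_, fun s hBs f hf hc => ?_⟩
  · have h1 := h.card_le _ ((Lup_clq G t ht).2 hs)
    rw [Lup_card] at h1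
    omega
  · obtain ⟨u, h1, h2, h3⟩ := h.facet _ ((Lup_clq G t ht).2 hs)
    have htu : t ⊆ u := (Lup_sub G t s).trans h1
    have h4 := Lup_dn G t htu (Lks_clq G t htu h2)
    refine ⟨Ldn G t u, ?_, ?_, ?_⟩
    · rw [← Lup_mono G t, h4]
      exact h1
    · rw [← Lup_clq G t ht, h4]
      exact h2
    · have h5 := Lup_card G t (Ldn G t u)
      rw [h4, h3] at h5
      omega
  · obtain ⟨y, hy1, hy2⟩ := h.low (Lup G t s) ((Lup_clq G t ht).2 hs) (t.card + j) (by omega)
      (Lex G t f) (hsupp s j f hf) ((Lex_cyc G t).1 hc)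
    refine ⟨fun u => y (Lup G t u), fun u hu => ?_, fun u hu => ?_⟩
    · obtain ⟨h2, h3, h4⟩ := hy1 _ hu
      rw [Lup_card] at h4
      exact ⟨(Lup_clq G t ht).1 h2, (Lup_mono G t).1 h3, by omega⟩
    · have h1 := hy2 (Lup G t u) ((Lup_mono G t).2 hu)
      rw [Lex_up, Lks_sum G t y u] at h1
      · exact h1
      · intro w hw hwl
        by_contra hne
        have h3 := (hy1 _ hne).1
        rcases Lks_clq G t ((Lup_sub G t u).trans (subset_insert _ _)) h3 w (mem_insert_self _ _)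
          with h4 | h4
        · exact hw (Lup_sub G t _ h4)
        · exact hwl h4
  · have h1 := h.top (Lup G t s) ((Lup_clq G t ht).2 hs) hBs (Lex G t f) (fun u hu => by
      obtain ⟨h2, h3, h4⟩ := hsupp s _ f hf u hu
      exact ⟨h2, h3, by omega⟩)
    rw [Lex_cyc G t, h1]
    constructor
    · rintro ⟨c, hc⟩
      refine ⟨c, fun u hu1 hu2 hu3 => ?_⟩
      rw [← hc (Lup G t u) ((Lup_clq G t ht).2 hu1) ((Lup_mono G t).2 hu2)
        (by rw [Lup_card, hu3]; omega), Lex_up]
    · rintro ⟨c, hc⟩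
      refine ⟨c, fun u hu1 hu2 hu3 => ?_⟩
      have htu : t ⊆ u := (Lup_sub G t s).trans hu2
      have h4 := Lup_dn G t htu (Lks_clq G t htu hu1)
      have h5 := Lup_card G t (Ldn G t u)
      rw [h4, hu3] at h5
      rw [← h4, Lex_up]
      refine hc _ ?_ ?_ (by omega)
      · rw [← Lup_clq G t ht, h4]
        exact hu1
      · rw [← Lup_mono G t, h4]
        exact hu2
  · have h1 := h.bot (Lup G t s) hBs (Lex G t f) (fun u hu => by
      obtain ⟨h2, h3, h4⟩ := hsupp s _ f hf u hu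
      exact ⟨h2, h3, by omega⟩) ((Lex_cyc G t).1 hc)
    funext u
    rw [← Lex_up G t f u, h1]
    rfl

end Pool.Agent.S9
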