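import Pool.Agent.S9.F.Tr
import Pool.Agent.H19.SR.Pair

/-!
# Project S9, block F: universal coefficients and Frobenius

PLAN. (1) `frob`: for a homomorphism `f : K →+* L` of fields there is an additive `l : L →+ K` with `l (f a * b) = a * l b`,
`l 1 = 1` (`letI := f.toAlgebra`, a linear left inverse of `Algebra.linearMap K L`). Use it for `frobenius K 2 : K →+* K`.
(2) elementary chains: `X u = if h : u ∈ Γ then χ ⟨u, h⟩ ^ 2 else 0`, `ee A w A' w' = if A' = A then ∑ C ∈ A.powerset,
X (w' * gp R.s C * w⁻¹) else 0` for a clique `A` with `i` elements. Then `ee A w ∈ Cc R Γ (ch (χ ^ 2)) i`,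
`ee A (w * s v) = ee A w` for `v ∈ A`, `ee A (g * w) = χ(g)⁻² • ee A w`, `bd (ee A w) = ∑ v ∈ A, (ee (A - v) w +
ee (A - v) (w * s v))`, and `z = ∑ A clique of i elements, ∑ p ∈ bs R F A, z A p • ee A p` for `z ∈ Cc R Γ (ch (χ ^ 2)) i`
(only `C = {v ∈ A | R.b w' v = 1}` and one `p ∈ F` contribute).
(3) if `z₀ ^ 2 ∉ Bc R Γ (ch (χ ^ 2)) i` there is a linear form `φ` on `Finset V → W → K` which vanishes on it, with
`φ (z₀ ^ 2) ≠ 0`; `x A w := φ (ee A w)` is a cocycle in `Cc R Γ (ch (χ⁻¹ ^ 2)) i` and the pairing with `z₀ ^ 2` is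
`φ (z₀ ^ 2)`. So `z₀ ^ 2 = bd y`, and `z₀ = bd (l ∘ y)`.
-/

set_option autoImplicit false
set_option linter.unusedSectionVars false

open Finset

namespace Pool.Agent.S9

open Pool.Agent.H73.GC Pool.Agent.H19.SR

variable {V : Type} [DecidableEq V] [Fintype V] {G : SimpleGraph V} {W : Type} [Group W]

section Gp

variable (R : Rac G W)

private theorem Uc_list {C : Finset V} {v : V} (hv : v ∉ C)
    (hC : G.IsClique ((insert v C : Finset V) : Set V)) : ∀ L : List V, L.Nodup →
      ((L.filter fun u => u ∈ insert v C).map R.s).prod =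
        ((L.filter fun u => u ∈ C).map R.s).prod * if v ∈ L then R.s v else 1
  | [], _ => by simp
  | x :: L, hL => by
    have hx : x ∉ L := (List.nodup_cons.1 hL).1
    have ih := Uc_list hv hC L (List.nodup_cons.1 hL).2
    by_cases hxv : x = v
    · subst hxv
      rw [List.filter_cons_of_pos (by simp), List.filter_cons_of_neg (by simpa using hv)]
      rw [List.map_cons, List.prod_cons, ih, if_neg hx, mul_one, if_pos (List.mem_cons_self)]
      have h3 : Commute (R.s x) ((L.filter fun u => u ∈ C).map R.s).prod := by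
        refine Commute.list_prod_right _ _ fun y hy => ?_
        obtain ⟨u, hu, rfl⟩ := List.mem_map.1 hy
        have hu' : u ∈ C := by simpa using (List.mem_filter.1 hu).2
        have hux : x ≠ u := fun h => hv (h ▸ hu')
        refine R.comm x u (hC ?_ ?_ hux)
        · simp
        · simp [hu']
      exact h3
    · have h4 : (v ∈ x :: L) ↔ v ∈ L := by
        rw [List.mem_cons]
        constructor
        · rintro (h | h)
          · exact absurd h.symm hxv
          · exact h
        · exact Or.inr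
      have h5 : (if v ∈ x :: L then R.s v else 1) = if v ∈ L then R.s v else 1 := by
        by_cases h : v ∈ L
        · rw [if_pos h, if_pos (h4.2 h)]
        · rw [if_neg h, if_neg (fun h' => h (h4.1 h'))]
      rw [h5]
      by_cases hxC : x ∈ C
      · rw [List.filter_cons_of_pos (by simp [hxC]), List.filter_cons_of_pos (by simpa using hxC),
          List.map_cons, List.prod_cons, List.map_cons, List.prod_cons, ih, mul_assoc]
      · rw [List.filter_cons_of_neg (by simp [hxC, hxv]), List.filter_cons_of_neg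
          (by simpa using hxC), ih]

/-- `gp (C + v) = gp C * s v` -/
private theorem Uc_ins {C : Finset V} {v : V} (hv : v ∉ C)
    (hC : G.IsClique ((insert v C : Finset V) : Set V)) : gp R.s (insert v C) = gp R.s C * R.s v := by
  have h := Uc_list R hv hC (univ : Finset V).toList (Finset.nodup_toList _)
  rw [if_pos (Finset.mem_toList.2 (mem_univ v))] at h
  exact h

/-- `gp (C + v) = s v * gp C` -/
private theorem Uc_ins' {C : Finset V} {v : V} (hv : v ∉ C)
    (hC : G.IsClique ((insert v C : Finset V) : Set V)) : gp R.s (insert v C) = R.s v * gp R.s C := by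
  have h3 : Commute (R.s v) (gp R.s C) := by
    refine Commute.list_prod_right _ _ fun y hy => ?_
    obtain ⟨u, hu, rfl⟩ := List.mem_map.1 hy
    have hu' : u ∈ C := by simpa using (List.mem_filter.1 hu).2
    have hux : v ≠ u := fun h => hv (h ▸ hu')
    refine R.comm v u (hC ?_ ?_ hux)
    · simp
    · simp [hu']
  rw [Uc_ins R hv hC]
  exact h3.eq.symm

private theorem Uc_empty : gp R.s ∅ = 1 := by
  unfold gp
  simp

private theorem Uc_clq {A B : Finset V} (h : G.IsClique (A : Set V)) (hB : B ⊆ A) :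
    G.IsClique (B : Set V) := h.subset (by exact_mod_cast hB)

private theorem Uc_bits {A : Finset V} (hA : G.IsClique (A : Set V)) {C : Finset V} (hC : C ⊆ A) (v : V) :
    R.b (gp R.s C) v = if v ∈ C then 1 else 0 := by
  classical
  induction C using Finset.induction_on with
  | empty => rw [Uc_empty, R.b_one, if_neg (notMem_empty v)]
  | insert u C hu ih =>
    rw [Uc_ins R hu (Uc_clq hA hC), R.b_mul, ih ((subset_insert _ _).trans hC), R.b_s]
    by_cases h : u = v
    · subst h
      rw [if_neg hu, if_pos rfl, if_pos (mem_insert_self _ _), zero_add]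
    · rw [if_neg h, add_zero]
      by_cases h' : v ∈ C
      · rw [if_pos h', if_pos (mem_insert_of_mem h')]
      · rw [if_neg h', if_neg]
        intro h2
        rcases mem_insert.1 h2 with h3 | h3
        · exact h h3.symm
        · exact h' h3

/-- invariance under the letters of `A` gives invariance under `gp C` -/
private theorem Uc_inv {M : Type} {A : Finset V} {f : W → M} (hf : ∀ v ∈ A, ∀ w, f (w * R.s v) = f w)
    {C : Finset V} (hC : C ⊆ A) (w : W) : f (w * gp R.s C) = f w := by
  have key : ∀ L : List V, (∀ v ∈ L, v ∈ A) → ∀ w, f (w * (L.map R.s).prod) = f w := by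
    intro L
    induction L with
    | nil =>
      intro _ w
      simp
    | cons x L ih =>
      intro hL w
      rw [List.map_cons, List.prod_cons, ← mul_assoc, ih (fun v hv => hL v (List.mem_cons_of_mem _ hv)),
        hf x (hL x List.mem_cons_self)]
  exact key _ (fun v hv => hC (by simpa using (List.mem_filter.1 hv).2)) w

end Gp

section Es

variable (R : Rac G W) {K : Type} [Field K] (X : W → K)

/-- the elementary function: the sum over the cube -/
noncomputable def esU (A : Finset V) (w w' : W) : K :=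
  ∑ C ∈ A.powerset, X (w' * gp R.s C * w⁻¹)

private theorem esU_l {A : Finset V} {v : V} (hv : v ∉ A) (hA : G.IsClique ((insert v A : Finset V) : Set V))
    (w w' : W) : esU R X (insert v A) w w' = esU R X A w w' + esU R X A (w * R.s v) w' := by
  unfold esU
  rw [sum_powerset_insert hv]
  congr 1
  refine sum_congr rfl fun C hC => ?_
  have hC' := mem_powerset.1 hC
  have h1 : (w * R.s v)⁻¹ = R.s v * w⁻¹ := by
    rw [mul_inv_rev, inv_eq_of_mul_eq_one_left (R.sq v)]
  rw [Uc_ins R (fun h => hv (hC' h)) (Uc_clq hA (insert_subset_insert _ hC')), h1]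
  simp only [mul_assoc]

private theorem esU_r {A : Finset V} {v : V} (hv : v ∉ A) (hA : G.IsClique ((insert v A : Finset V) : Set V))
    (w w' : W) : esU R X (insert v A) w w' = esU R X A w w' + esU R X A w (w' * R.s v) := by
  unfold esU
  rw [sum_powerset_insert hv]
  congr 1
  refine sum_congr rfl fun C hC => ?_
  have hC' := mem_powerset.1 hC
  rw [Uc_ins' R (fun h => hv (hC' h)) (Uc_clq hA (insert_subset_insert _ hC'))]
  simp only [mul_assoc]

private theorem Uc_ss (R : Rac G W) (w : W) (v : V) : w * R.s v * R.s v = w := by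
  rw [mul_assoc, R.sq, mul_one]

private theorem esU_inv_r {A : Finset V} {v : V} (hv : v ∈ A) (hA : G.IsClique (A : Set V))
    (w w' : W) : esU R X A w (w' * R.s v) = esU R X A w w' := by
  have h : insert v (A.erase v) = A := insert_erase hv
  have hA' : G.IsClique ((insert v (A.erase v) : Finset V) : Set V) := by rw [h]; exact hA
  have h1 := esU_r R X (notMem_erase v A) hA' w (w' * R.s v)
  have h2 := esU_r R X (notMem_erase v A) hA' w w'
  rw [h, Uc_ss] at h1
  rw [h] at h2
  rw [h1, h2, add_comm]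

private theorem esU_inv_l {A : Finset V} {v : V} (hv : v ∈ A) (hA : G.IsClique (A : Set V))
    (w w' : W) : esU R X A (w * R.s v) w' = esU R X A w w' := by
  have h : insert v (A.erase v) = A := insert_erase hv
  have hA' : G.IsClique ((insert v (A.erase v) : Finset V) : Set V) := by rw [h]; exact hA
  have h1 := esU_l R X (notMem_erase v A) hA' (w * R.s v) w'
  have h2 := esU_l R X (notMem_erase v A) hA' w w'
  rw [h, Uc_ss] at h1
  rw [h] at h2
  rw [h1, h2, add_comm]

end Es

section Ee

variable (R : Rac G W) {K : Type} [Field K] {Γ : Subgroup W}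

open Classical in
/-- the character, extended by zero -/
noncomputable def XU (Λ : Γ →* Kˣ) (u : W) : K := if h : u ∈ Γ then (Λ ⟨u, h⟩ : K) else 0

private theorem XU_l (Λ : Γ →* Kˣ) (g : Γ) (u : W) : XU Λ (g * u) = Λ g * XU Λ u := by
  unfold XU
  by_cases h : u ∈ Γ
  · have h2 : (g : W) * u ∈ Γ := Γ.mul_mem g.2 h
    rw [dif_pos h, dif_pos h2]
    have h3 : (⟨g * u, h2⟩ : Γ) = g * ⟨u, h⟩ := rfl
    rw [h3, map_mul, Units.val_mul]
  · have h2 : ¬ (g : W) * u ∈ Γ := fun h3 => h ((Subgroup.mul_mem_cancel_left _ g.2).1 h3)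
    rw [dif_neg h, dif_neg h2, mul_zero]

private theorem XU_r (Λ : Γ →* Kˣ) (g : Γ) (u : W) : XU Λ (u * (g : W)⁻¹) = (Λ⁻¹ g : Kˣ) * XU Λ u := by
  unfold XU
  by_cases h : u ∈ Γ
  · have h2 : u * (g : W)⁻¹ ∈ Γ := Γ.mul_mem h (Γ.inv_mem g.2)
    rw [dif_pos h, dif_pos h2]
    have h3 : (⟨u * (g : W)⁻¹, h2⟩ : Γ) = ⟨u, h⟩ * g⁻¹ := rfl
    rw [h3, map_mul, map_inv, Units.val_mul, mul_comm]
    rfl
  · have h2 : ¬ u * (g : W)⁻¹ ∈ Γ := fun h3 =>
      h ((Subgroup.mul_mem_cancel_right _ (Γ.inv_mem g.2)).1 h3)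
    rw [dif_neg h, dif_neg h2, mul_zero]

private theorem XU_one (Λ : Γ →* Kˣ) : XU Λ (1 : W) = 1 := by
  unfold XU
  rw [dif_pos Γ.one_mem]
  have h3 : (⟨1, Γ.one_mem⟩ : Γ) = 1 := rfl
  rw [h3, map_one, Units.val_one]

private theorem esU_gr (Λ : Γ →* Kˣ) (A : Finset V) (g : Γ) (w w' : W) :
    esU R (XU Λ) A w (g * w') = Λ g * esU R (XU Λ) A w w' := by
  unfold esU
  rw [mul_sum]
  refine sum_congr rfl fun C _ => ?_
  rw [← XU_l]
  simp only [mul_assoc]

private theorem esU_gl (Λ : Γ →* Kˣ) (A : Finset V) (g : Γ) (w w' : W) :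
    esU R (XU Λ) A (g * w) w' = (Λ⁻¹ g : Kˣ) * esU R (XU Λ) A w w' := by
  unfold esU
  rw [mul_sum]
  refine sum_congr rfl fun C _ => ?_
  rw [← XU_r, mul_inv_rev]
  simp only [mul_assoc]

open Classical in
/-- the elementary chain -/
noncomputable def eeU (Λ : Γ →* Kˣ) (i : ℕ) (A : Finset V) (w : W) : Finset V → W → K :=
  if G.IsClique (A : Set V) ∧ A.card = i then fun A' w' => if A' = A then esU R (XU Λ) A w w' else 0 else 0

private theorem eeU_mem (Λ : Γ →* Kˣ) (i : ℕ) (A : Finset V) (w : W) :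
    eeU R Λ i A w ∈ Cc R Γ (ch Λ) i := by
  classical
  unfold eeU
  by_cases hA : G.IsClique (A : Set V) ∧ A.card = i
  · rw [if_pos hA, mem_Cc]
    refine ⟨fun A' h => ?_, fun A' v hv w' => ?_, fun A' g w' => ?_⟩
    · by_cases h1 : A' = A
      · rw [h1]
        exact hA
      · exact absurd (by
          funext w'
          show (if A' = A then esU R (XU Λ) A w w' else 0) = 0
          rw [if_neg h1]) h
    · show (if A' = A then esU R (XU Λ) A w (w' * R.s v) else 0) = if A' = A then esU R (XU Λ) A w w' else 0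
      by_cases h1 : A' = A
      · subst h1
        rw [if_pos rfl, if_pos rfl, esU_inv_r R _ hv hA.1]
      · rw [if_neg h1, if_neg h1]
    · show (if A' = A then esU R (XU Λ) A w (g * w') else 0) =
        (ch Λ g) (if A' = A then esU R (XU Λ) A w w' else 0)
      by_cases h1 : A' = A
      · subst h1
        rw [if_pos rfl, if_pos rfl, esU_gr]
        rfl
      · rw [if_neg h1, if_neg h1, map_zero]
  · rw [if_neg hA]
    exact (Cc R Γ (ch Λ) i).zero_mem

private theorem eeU_inv (Λ : Γ →* Kˣ) (i : ℕ) {A : Finset V} {v : V} (hv : v ∈ A) (w : W) :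
    eeU R Λ i A (w * R.s v) = eeU R Λ i A w := by
  classical
  unfold eeU
  by_cases hA : G.IsClique (A : Set V) ∧ A.card = i
  · rw [if_pos hA, if_pos hA]
    funext A' w'
    by_cases h1 : A' = A
    · rw [if_pos h1, if_pos h1, esU_inv_l R _ hv hA.1]
    · rw [if_neg h1, if_neg h1]
  · rw [if_neg hA, if_neg hA]

private theorem eeU_g (Λ : Γ →* Kˣ) (i : ℕ) (A : Finset V) (g : Γ) (w : W) :
    eeU R Λ i A (g * w) = ((Λ⁻¹ g : Kˣ) : K) • eeU R Λ i A w := by
  classical
  unfold eeU
  by_cases hA : G.IsClique (A : Set V) ∧ A.card = i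
  · rw [if_pos hA, if_pos hA]
    funext A' w'
    show (if A' = A then esU R (XU Λ) A (g * w) w' else 0) =
      ((Λ⁻¹ g : Kˣ) : K) * (if A' = A then esU R (XU Λ) A w w' else 0)
    by_cases h1 : A' = A
    · rw [if_pos h1, if_pos h1, esU_gl]
    · rw [if_neg h1, if_neg h1, mul_zero]
  · rw [if_neg hA, if_neg hA, smul_zero]

/-- the boundary of the elementary chain -/
private theorem eeU_bd (Λ : Γ →* Kˣ) (i : ℕ) {A : Finset V} (hA : G.IsClique (A : Set V)) (hi : A.card = i + 1)
    (w : W) : bd K (eeU R Λ (i + 1) A w) = ∑ v ∈ A, (eeU R Λ i (A.erase v) w + eeU R Λ i (A.erase v) (w * R.s v)) := by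
  classical
  funext B w'
  rw [bd_apply, Finset.sum_apply, Finset.sum_apply]
  have e1 : ∀ v, eeU R Λ (i + 1) A w (insert v B) w' = if insert v B = A then esU R (XU Λ) A w w' else 0 := by
    intro v
    unfold eeU
    rw [if_pos ⟨hA, hi⟩]
  have e2 : ∀ v ∈ A, (eeU R Λ i (A.erase v) w + eeU R Λ i (A.erase v) (w * R.s v)) B w' =
      if B = A.erase v then esU R (XU Λ) A w w' else 0 := by
    intro v hv
    have h1 : G.IsClique ((A.erase v : Finset V) : Set V) ∧ (A.erase v).card = i :=
      ⟨Uc_clq hA (erase_subset _ _), by rw [card_erase_of_mem hv, hi, Nat.add_sub_cancel]⟩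
    unfold eeU
    rw [if_pos h1, if_pos h1]
    show (if B = A.erase v then esU R (XU Λ) (A.erase v) w w' else 0) +
      (if B = A.erase v then esU R (XU Λ) (A.erase v) (w * R.s v) w' else 0) = _
    by_cases h2 : B = A.erase v
    · rw [if_pos h2, if_pos h2, if_pos h2]
      have h3 := esU_l R (XU Λ) (notMem_erase v A) (by rw [insert_erase hv]; exact hA) w w'
      rw [insert_erase hv] at h3
      exact h3.symm
    · rw [if_neg h2, if_neg h2, if_neg h2, add_zero]
  rw [sum_congr rfl fun v _ => e1 v, sum_congr rfl fun v hv => e2 v hv]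
  rw [← sum_filter, ← sum_filter]
  refine sum_congr ?_ fun _ _ => rfl
  ext v
  simp only [mem_filter, mem_compl]
  constructor
  · rintro ⟨h1, h2⟩
    have h3 : v ∈ A := by rw [← h2]; exact mem_insert_self _ _
    exact ⟨h3, by rw [← h2, erase_insert h1]⟩
  · rintro ⟨h1, h2⟩
    rw [h2]
    exact ⟨notMem_erase _ _, insert_erase h1⟩

/-- the expansion of a chain -/
private theorem eeU_exp (Λ : Γ →* Kˣ) (i : ℕ) {F : Finset W} (hF : IsTr Γ F) (hb : ∀ g ∈ Γ, ∀ v, R.b g v = 0)
    {z : Finset V → W → K} (hz : z ∈ Cc R Γ (ch Λ) i) {A : Finset V} (hA : G.IsClique (A : Set V))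
    (w : W) : z A w = ∑ p ∈ bs R F A, z A p * esU R (XU Λ) A p w := by
  classical
  obtain ⟨-, hz2, hz3⟩ := (mem_Cc R).1 hz
  -- the right hand side is invariant
  have r1 : ∀ v ∈ A, ∀ w, ∑ p ∈ bs R F A, z A p * esU R (XU Λ) A p (w * R.s v) =
      ∑ p ∈ bs R F A, z A p * esU R (XU Λ) A p w := by
    intro v hv w
    refine sum_congr rfl fun p _ => ?_
    rw [esU_inv_r R _ hv hA]
  set C := A.filter fun v => ¬ R.b w v = 0 with hC
  have hCA : C ⊆ A := filter_subset _ _
  have i1 := Uc_inv R (hz2 A) hCA w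
  have i2 := Uc_inv R (f := fun w => ∑ p ∈ bs R F A, z A p * esU R (XU Λ) A p w) r1 hCA w
  rw [← i1]
  refine Eq.trans ?_ i2
  show z A (w * gp R.s C) = ∑ p ∈ bs R F A, z A p * esU R (XU Λ) A p (w * gp R.s C)
  set w₁ := w * gp R.s C with hw₁
  have hbw : ∀ v ∈ A, R.b w₁ v = 0 := by
    intro v hv
    rw [hw₁, R.b_mul, Uc_bits R hA hCA]
    by_cases h : R.b w v = 0
    · have h2 : v ∉ C := by
        rw [hC, mem_filter]
        exact fun h3 => h3.2 h
      rw [h, if_neg h2, add_zero]
    · have h2 : v ∈ C := by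
        rw [hC, mem_filter]
        exact ⟨hv, h⟩
      rw [if_pos h2]
      have h5 : ∀ a : ZMod 2, ¬ a = 0 → a + 1 = 0 := by decide
      exact h5 _ h
  obtain ⟨p₀, ⟨hp₀, hg⟩, hu⟩ := hF w₁
  have hw₂ : w₁ = ((⟨w₁ * p₀⁻¹, hg⟩ : Γ) : W) * p₀ := by
    show w₁ = w₁ * p₀⁻¹ * p₀
    rw [inv_mul_cancel_right]
  have hbp : ∀ v ∈ A, R.b p₀ v = 0 := by
    intro v hv
    have h1 := hbw v hv
    rw [hw₂, R.b_mul, hb _ hg, zero_add] at h1
    exact h1
  have hm : p₀ ∈ bs R F A := (mem_bs R).2 ⟨hp₀, hbp⟩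
  rw [hw₂, hz3]
  have e3 : ∀ p ∈ bs R F A, z A p * esU R (XU Λ) A p (((⟨w₁ * p₀⁻¹, hg⟩ : Γ) : W) * p₀) =
      (Λ ⟨w₁ * p₀⁻¹, hg⟩ : K) * (if p = p₀ then z A p₀ else 0) := by
    intro p hp
    obtain ⟨hp1, hp2⟩ := (mem_bs R).1 hp
    rw [esU_gr, mul_left_comm]
    congr 1
    have h2 : esU R (XU Λ) A p p₀ = if p = p₀ then 1 else 0 := by
      unfold esU
      have h3 : ∀ C ∈ A.powerset, C ≠ ∅ → XU Λ (p₀ * gp R.s C * p⁻¹) = 0 := by
        intro C hC hne
        have hC' := mem_powerset.1 hC
        unfold XU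
        rw [dif_neg]
        intro h4
        obtain ⟨v, hv⟩ := nonempty_iff_ne_empty.2 hne
        have h5 := hb _ h4 v
        have h6 : R.b (p₀ * gp R.s C * p⁻¹) v + R.b p v = R.b (p₀ * gp R.s C) v := by
          rw [← R.b_mul, inv_mul_cancel_right]
        rw [h5, hp2 v (hC' hv), zero_add, R.b_mul, hbp v (hC' hv), Uc_bits R hA hC', if_pos hv, zero_add] at h6
        exact zero_ne_one h6
      rw [sum_eq_single_of_mem ∅ (empty_mem_powerset _) (fun C hC hne => h3 C hC hne), Uc_empty, mul_one]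
      by_cases hpp : p = p₀
      · subst hpp
        rw [if_pos rfl, mul_inv_cancel, XU_one]
      · rw [if_neg hpp]
        unfold XU
        rw [dif_neg]
        intro h4
        apply hpp
        refine (hu p ⟨hp1, ?_⟩)
        rw [hw₂]
        have h5 : ((⟨w₁ * p₀⁻¹, hg⟩ : Γ) : W) * p₀ * p⁻¹ = ((⟨w₁ * p₀⁻¹, hg⟩ : Γ) : W) * (p₀ * p⁻¹) := by
          rw [mul_assoc]
        rw [h5]
        exact Γ.mul_mem hg h4
    rw [h2]
    by_cases hpp : p = p₀
    · rw [if_pos hpp, if_pos hpp, hpp, mul_one]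
    · rw [if_neg hpp, if_neg hpp, mul_zero]
  rw [sum_congr rfl e3, ← mul_sum, sum_ite_eq' , if_pos hm]
  rfl

end Ee

/-- a left inverse of a homomorphism of fields -/
theorem frob {K L : Type} [Field K] [Field L] (f : K →+* L) :
    ∃ l : L →+ K, (∀ a b, l (f a * b) = a * l b) ∧ l 1 = 1 := by
  let _ := f.toAlgebra
  obtain ⟨g, hg⟩ := LinearMap.exists_leftInverse_of_injective (Algebra.linearMap K L)
    (LinearMap.ker_eq_bot.2 f.injective)
  refine ⟨g.toAddMonoidHom, fun a b => ?_, ?_⟩
  · have h := g.map_smul a b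
    rw [Algebra.smul_def] at h
    exact h
  · have h := LinearMap.congr_fun hg 1
    simpa using h

theorem uc (R : Rac G W) {Γ : Subgroup W} (hΓ : Lev R Γ) {F : Finset W} (hF : IsTr Γ F) {K : Type}
    [Field K] [CharP K 2] (χ : Γ →* Kˣ) {i : ℕ} {z₀ : Finset V → W → K}
    (hz : z₀ ∈ Zc R Γ (ch χ) i)
    (h : ∀ x ∈ Cc R Γ (ch (χ⁻¹ ^ 2)) i, cb R x = 0 →
      PAIR G R F (fun A w => x A w * z₀ A w ^ 2) = 0) : z₀ ∈ Bc R Γ (ch χ) i := by
  classical
  obtain ⟨hzc, hzk⟩ := Submodule.mem_inf.1 hz
  obtain ⟨hz1, hz2, hz3⟩ := (mem_Cc R).1 hzc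
  have hb := hΓ.bits
  -- the square of the cycle
  set q : Finset V → W → K := fun A w => z₀ A w ^ 2 with hq
  have hch : ∀ (Λ : Γ →* Kˣ) (g : Γ) (y : K), ch Λ g y = (Λ g : K) * y := fun Λ g y => rfl
  have hqc : q ∈ Cc R Γ (ch (χ ^ 2)) i := by
    rw [mem_Cc]
    refine ⟨fun A h => hz1 A fun h0 => h ?_, fun A v hv w => ?_, fun A g w => ?_⟩
    · funext w
      show z₀ A w ^ 2 = 0
      rw [h0]
      exact zero_pow two_ne_zero
    · show z₀ A (w * R.s v) ^ 2 = z₀ A w ^ 2
      rw [hz2 A v hv]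
    · show z₀ A (g * w) ^ 2 = ch (χ ^ 2) g (z₀ A w ^ 2)
      rw [hz3 A g, hch, hch, mul_pow]
      rfl
  -- it is a boundary
  have hqb : q ∈ Bc R Γ (ch (χ ^ 2)) i := by
    by_contra hcon
    obtain ⟨φ, hφ1, hφ2⟩ := Submodule.exists_dual_map_eq_bot_of_notMem hcon inferInstance
    have hφ3 : ∀ y ∈ Cc R Γ (ch (χ ^ 2)) (i + 1), φ (bd K y) = 0 := by
      intro y hy
      have h1 : φ (bd K y) ∈ (Bc R Γ (ch (χ ^ 2)) i).map φ :=
        Submodule.mem_map_of_mem (Submodule.mem_map_of_mem hy)
      rw [hφ2] at h1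
      exact (Submodule.mem_bot K).1 h1
    have hx := h (fun A w => φ (eeU R (χ ^ 2) i A w)) (by
      rw [mem_Cc]
      refine ⟨fun A h1 => ?_, fun A v hv w => ?_, fun A g w => ?_⟩
      · by_contra h2
        apply h1
        funext w
        show φ (eeU R (χ ^ 2) i A w) = 0
        unfold eeU
        rw [if_neg h2, map_zero]
      · show φ (eeU R (χ ^ 2) i A (w * R.s v)) = φ (eeU R (χ ^ 2) i A w)
        rw [eeU_inv R _ _ hv]
      · show φ (eeU R (χ ^ 2) i A (g * w)) = ch (χ⁻¹ ^ 2) g (φ (eeU R (χ ^ 2) i A w))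
        rw [eeU_g, map_smul, hch]
        have h9 : (χ ^ 2)⁻¹ g = (χ⁻¹ ^ 2) g := by
          show (χ g ^ 2)⁻¹ = (χ g)⁻¹ ^ 2
          rw [inv_pow]
        rw [h9]
        rfl) (by
      funext A w
      show cb R (fun A w => φ (eeU R (χ ^ 2) i A w)) A w = 0
      unfold cb
      by_cases hA : G.IsClique (A : Set V)
      · rw [if_pos hA]
        by_cases hi : A.card = i + 1
        · have h1 := hφ3 _ (eeU_mem R (χ ^ 2) (i + 1) A w)
          rw [eeU_bd R (χ ^ 2) i hA hi, map_sum] at h1
          rw [← h1]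
          refine sum_congr rfl fun v _ => ?_
          rw [map_add]
        · refine sum_eq_zero fun v hv => ?_
          have h2 : ∀ w, eeU R (χ ^ 2) i (A.erase v) w = 0 := by
            intro w
            unfold eeU
            rw [if_neg]
            rintro ⟨-, h3⟩
            apply hi
            rw [card_erase_of_mem hv] at h3
            have h4 : 0 < A.card := card_pos.2 ⟨v, hv⟩
            omega
          show φ (eeU R (χ ^ 2) i (A.erase v) w) + φ (eeU R (χ ^ 2) i (A.erase v) (w * R.s v)) = 0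
          rw [h2, h2, map_zero, add_zero]
      · rw [if_neg hA])
    apply hφ1
    rw [← hx]
    -- the expansion
    have hexp : q = ∑ A ∈ (univ : Finset (Finset V)).filter (fun A : Finset V => G.IsClique (A : Set V)),
        ∑ p ∈ bs R F A, q A p • eeU R (χ ^ 2) i A p := by
      funext B w
      rw [Finset.sum_apply, Finset.sum_apply]
      have h1 : ∀ A ∈ (univ : Finset (Finset V)).filter (fun A : Finset V => G.IsClique (A : Set V)),
          (∑ p ∈ bs R F A, q A p • eeU R (χ ^ 2) i A p) B w = if A = B then q B w else 0 := by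
        intro A hA
        have hA' := (mem_filter.1 hA).2
        rw [Finset.sum_apply, Finset.sum_apply]
        by_cases hAB : A = B
        · subst hAB
          rw [if_pos rfl]
          by_cases hi : A.card = i
          · rw [eeU_exp R (χ ^ 2) i hF hb hqc hA' w]
            refine sum_congr rfl fun p _ => ?_
            show q A p * eeU R (χ ^ 2) i A p A w = _
            unfold eeU
            rw [if_pos ⟨hA', hi⟩, if_pos rfl]
          · have h2 : q A = 0 := by
              by_contra h3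
              exact hi (((mem_Cc R).1 hqc).1 A h3).2
            rw [h2]
            refine sum_eq_zero fun p _ => ?_
            show (0 : K) * _ = 0
            rw [zero_mul]
        · rw [if_neg hAB]
          refine sum_eq_zero fun p _ => ?_
          show q A p * eeU R (χ ^ 2) i A p B w = 0
          unfold eeU
          by_cases h2 : G.IsClique (A : Set V) ∧ A.card = i
          · rw [if_pos h2, if_neg (fun h3 => hAB h3.symm), mul_zero]
          · rw [if_neg h2]
            exact mul_zero _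
      rw [sum_congr rfl h1, sum_ite_eq']
      by_cases hB : G.IsClique (B : Set V)
      · have h7 : B ∈ (univ : Finset (Finset V)).filter (fun A : Finset V => G.IsClique (A : Set V)) :=
          mem_filter.2 ⟨mem_univ _, hB⟩
        rw [if_pos h7]
      · have h7 : B ∉ (univ : Finset (Finset V)).filter (fun A : Finset V => G.IsClique (A : Set V)) :=
          fun h2 => hB (mem_filter.1 h2).2
        rw [if_neg h7]
        by_contra h3
        exact hB (((mem_Cc R).1 hqc).1 B fun h4 => h3 (by rw [h4]; rfl)).1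
    have h5 : φ q = ∑ A ∈ (univ : Finset (Finset V)).filter (fun A : Finset V => G.IsClique (A : Set V)),
        ∑ p ∈ bs R F A, q A p * φ (eeU R (χ ^ 2) i A p) := by
      conv_lhs => rw [hexp]
      rw [map_sum]
      refine sum_congr rfl fun A _ => ?_
      rw [map_sum]
      refine sum_congr rfl fun p _ => ?_
      rw [map_smul, smul_eq_mul]
    rw [h5]
    unfold PAIR
    refine sum_congr ?_ fun A _ => sum_congr rfl fun p _ => mul_comm _ _
    ext A
    simp
  -- descent
  obtain ⟨l, hl1, hl2⟩ := frob (frobenius K 2)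
  obtain ⟨y, hy, hyq⟩ := hqb
  obtain ⟨hy1, hy2, hy3⟩ := (mem_Cc R).1 hy
  refine ⟨fun A w => l (y A w), ?_, ?_⟩
  · rw [SetLike.mem_coe, mem_Cc]
    refine ⟨fun A h1 => hy1 A fun h0 => h1 ?_, fun A v hv w => ?_, fun A g w => ?_⟩
    · funext w
      show l (y A w) = 0
      rw [h0]
      exact map_zero l
    · show l (y A (w * R.s v)) = l (y A w)
      rw [hy2 A v hv]
    · show l (y A (g * w)) = ch χ g (l (y A w))
      rw [hy3 A g, hch, hch, ← hl1]
      rfl
  · funext A w
    rw [bd_apply]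
    have h1 := congrFun (congrFun hyq A) w
    rw [bd_apply] at h1
    rw [← map_sum, h1]
    have h2 := hl1 (z₀ A w) 1
    rw [mul_one, hl2, mul_one] at h2
    exact h2

end Pool.Agent.S9
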