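import Pool.Agent.S9.F.DuD
import Pool.Agent.S9.F.Uc
import Pool.Agent.S9.U.Disc

/-!
# Project S9, block F: discs (spheres and balls)
-/

set_option autoImplicit false
set_option linter.unusedSectionVars false

open Finset

namespace Pool.Agent.S9

open Pool.Agent.H73.GC Pool.Agent.H19.SR

variable {V : Type} [DecidableEq V] [Fintype V] {G : SimpleGraph V} {W : Type} [Group W]

/-- the unstable relation implies the main theorem of the block -/
theorem F_mainD_of (R : Rac G W) {n : ℕ} {B : Finset V → Prop} (hS : IsDisc G n B) {i : ℕ} {Γ : Subgroup W}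
    (hΓ : Lev R Γ) {K : Type} [Field K] [CharP K 2] (χ : Γ →* Kˣ)
    (hU : ∀ (F : Finset W), IsTr Γ F → ∀ j : ℕ, i + j = n → ∀ x ∈ Cc R Γ (ch (χ⁻¹ ^ 2)) i,
      cb R x = 0 → ∃ (N : Type) (_ : AddCommGroup N) (_ : Module K N) (_ : FiniteDimensional K N)
        (ρ : Γ →* Module.End K N) (π : N →ₗ[K] K), Tri (sqr χ) ρ ∧ Function.Surjective π ∧
        (∀ g y, π (ρ g y) = π y) ∧ ∀ a ∈ Cc R Γ (tw χ ρ) j, cb R a = 0 →
          (∀ s, B s → a s = 0) → INT G R F n (fun A w => ∑ τ ∈ A.powersetCard i,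
            x τ w * π (a (A \ τ) (w * gp R.s τ)) ^ 2) = 0)
    (z₀ : Finset V → W → K) (hz : z₀ ∈ Zc R Γ (ch χ) i) (hl : Lifts R Γ χ i z₀) :
    z₀ ∈ Bc R Γ (ch χ) i := by
  classical
  have := hΓ.fin
  obtain ⟨F, hF⟩ := tr_ex Γ
  refine uc R hΓ hF χ hz fun x hx hcx => ?_
  rcases Nat.lt_or_ge n i with hni | hni
  · -- no cells
    unfold PAIR
    refine sum_eq_zero fun A hA => sum_eq_zero fun p _ => ?_
    have h1 : x A = 0 := by
      by_contra h
      obtain ⟨h2, h3⟩ := ((mem_Cc R).1 hx).1 A h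
      have := hS.card_le A h2
      omega
    show x A p * z₀ A p ^ 2 = 0
    rw [h1, Pi.zero_apply, zero_mul]
  obtain ⟨N, _, _, _, ρ, π, hT, hπ, hinv, hint⟩ := hU F hF (n - i) (by omega) x hx hcx
  obtain ⟨z, hz', hzz⟩ := hl N ρ π hT hπ hinv
  obtain ⟨a, ha, hca, haB, hd⟩ := dualD R hS hΓ.bits hF (tw χ ρ) hni hz'
  have h1 := hd χ π (fun g y => by
    show π ((χ g : K) • ρ g y) = _
    rw [map_smul, hinv, smul_eq_mul]) x hx hcx
  rw [hint a ha hca haB] at h1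
  rw [← h1]
  unfold PAIR
  refine sum_congr rfl fun A _ => sum_congr rfl fun p _ => ?_
  show x A p * z₀ A p ^ 2 = x A p * π (z A p) ^ 2
  rw [hzz]

/-- BLOCKS U, F for discs -/
theorem F_mainD (R : Rac G W) {n : ℕ} {B : Finset V → Prop} (hS : IsDisc G n B) {i : ℕ} (hi : n < 2 * i) {Γ : Subgroup W}
    (hΓ : Lev R Γ) {K : Type} [Field K] [CharP K 2] (χ : Γ →* Kˣ) (hE : Eff R K Γ (sqr χ))
    (z₀ : Finset V → W → K) (hz : z₀ ∈ Zc R Γ (ch χ) i) (hl : Lifts R Γ χ i z₀) :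
    z₀ ∈ Bc R Γ (ch χ) i :=
  F_mainD_of R hS hΓ χ (fun _ hF _ hij _ hx hcx =>
    U.U_mainD R hS hΓ.bits χ hE hF hij (by omega) hx hcx) z₀ hz hl

end Pool.Agent.S9
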