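import Pool.Agent.S9.F.Tr

/-!
# Project S9, block F: discs (balls) and Stokes
-/

set_option autoImplicit false
set_option linter.unusedSectionVars false

open Finset

namespace Pool.Agent.S9

open Pool.Agent.H73.GC Pool.Agent.H19.SR

variable {V : Type} [DecidableEq V] [Fintype V] {G : SimpleGraph V} {W : Type} [Group W]

/-- The flag complex of `G` is a homology sphere or a homology ball of dimension `n - 1` over the field of two elements
and a homology manifold with boundary; the cliques in the boundary are the `s` with `B s`. -/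
structure IsDisc (G : SimpleGraph V) (n : ℕ) (B : Finset V → Prop) : Prop where
  clique : ∀ s, B s → G.IsClique (s : Set V)
  down : ∀ s t, B s → t ⊆ s → B t
  card_le : ∀ s : Finset V, G.IsClique (s : Set V) → s.card ≤ n
  facet : ∀ s : Finset V, G.IsClique (s : Set V) → ∃ t : Finset V, s ⊆ t ∧
    G.IsClique (t : Set V) ∧ t.card = n
  low : ∀ s : Finset V, G.IsClique (s : Set V) → ∀ j < n, ∀ f : Finset V → ZMod 2,
    (∀ t, f t ≠ 0 → G.IsClique (t : Set V) ∧ s ⊆ t ∧ t.card = j) →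
    (∀ t, s ⊆ t → ∑ v ∈ tᶜ, f (insert v t) = 0) →
    ∃ u : Finset V → ZMod 2, (∀ t, u t ≠ 0 → G.IsClique (t : Set V) ∧ s ⊆ t ∧ t.card = j + 1) ∧
      ∀ t, s ⊆ t → ∑ v ∈ tᶜ, u (insert v t) = f t
  top : ∀ s : Finset V, G.IsClique (s : Set V) → ¬ B s → ∀ f : Finset V → ZMod 2,
    (∀ t, f t ≠ 0 → G.IsClique (t : Set V) ∧ s ⊆ t ∧ t.card = n) →
    ((∀ t, s ⊆ t → ∑ v ∈ tᶜ, f (insert v t) = 0) ↔
      ∃ c, ∀ t : Finset V, G.IsClique (t : Set V) → s ⊆ t → t.card = n → f t = c)
  bot : ∀ s : Finset V, B s → ∀ f : Finset V → ZMod 2,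
    (∀ t, f t ≠ 0 → G.IsClique (t : Set V) ∧ s ⊆ t ∧ t.card = n) →
    (∀ t, s ⊆ t → ∑ v ∈ tᶜ, f (insert v t) = 0) → f = 0

/-- spheres are discs without boundary -/
theorem IsSph.disc {n : ℕ} (h : IsSph G n) : IsDisc G n fun _ => False where
  clique _ := False.elim
  down _ _ h _ := h
  card_le := h.card_le
  facet := h.facet
  low := h.low
  top s hs _ := h.top s hs
  bot _ h := h.elim

variable (R : Rac G W)

/-- **Stokes for discs** -/
theorem stokesD {n : ℕ} {B : Finset V → Prop} (hS : IsDisc G n B) {Γ : Subgroup W} {F : Finset W}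
    (hF : IsTr Γ F) (hb : ∀ g ∈ Γ, ∀ v, R.b g v = 0) {M : Type} [AddCommGroup M]
    (hM : ∀ y : M, y + y = 0) (ξ : Finset V → W → M)
    (hξ : ∀ B, ∀ g ∈ Γ, ∀ w, ξ B (g * w) = ξ B w) (hB : ∀ s, B s → ∀ w, ξ s w = 0) :
    INT G R F n (fun A w => ∑ v ∈ A, (ξ (A.erase v) w + ξ (A.erase v) (w * R.s v))) = 0 := by
  classical
  unfold INT
  have h1 : ∀ A : Finset V, ∑ p ∈ bs R F A, ∑ v ∈ A, (ξ (A.erase v) p +
      ξ (A.erase v) (p * R.s v)) = ∑ v ∈ A, ∑ p ∈ bs R F (A.erase v), ξ (A.erase v) p := by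
    intro A
    rw [sum_comm]
    refine sum_congr rfl fun v hv => ?_
    rw [sum_bs R hF hb (hξ _) (notMem_erase v A), insert_erase hv]
  rw [sum_congr rfl fun A _ => h1 A, sum_sigma']
  have h2 : (∑ x ∈ ((univ : Finset (Finset V)).filter (fun A : Finset V =>
        G.IsClique (A : Set V) ∧ A.card = n)).sigma (fun A : Finset V => A),
        (∑ p ∈ bs R F (x.1.erase x.2), ξ (x.1.erase x.2) p : M)) =
      ∑ B : Finset V, ∑ v ∈ Bᶜ.filter (fun v => G.IsClique ((insert v B : Finset V) : Set V) ∧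
        (insert v B).card = n), ∑ p ∈ bs R F B, ξ B p := by
    conv_rhs => rw [sum_sigma']
    refine sum_bij' (fun x _ => ⟨x.1.erase x.2, x.2⟩) (fun x _ => ⟨insert x.2 x.1, x.2⟩)
      ?_ ?_ ?_ ?_ ?_
    · rintro ⟨A, v⟩ h
      simp only [mem_filter, mem_sigma, mem_univ, true_and, mem_compl] at h ⊢
      refine ⟨notMem_erase _ _, ?_⟩
      rw [insert_erase h.2]
      exact h.1
    · rintro ⟨A, v⟩ h
      simp only [mem_filter, mem_sigma, mem_univ, true_and, mem_compl] at h ⊢
      exact ⟨h.2, mem_insert_self _ _⟩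
    · rintro ⟨A, v⟩ h
      simp only [mem_filter, mem_sigma, mem_univ, true_and] at h
      simp only [insert_erase h.2]
    · rintro ⟨A, v⟩ h
      simp only [mem_filter, mem_sigma, mem_univ, true_and, mem_compl] at h
      simp only [erase_insert h.1]
    · rintro ⟨A, v⟩ h
      rfl
  rw [h2]
  refine sum_eq_zero fun D _ => ?_
  by_cases hD : B D
  · refine sum_eq_zero fun v _ => sum_eq_zero fun p _ => hB D hD p
  rw [sum_const]
  have h3 : ((Dᶜ.filter (fun v => G.IsClique ((insert v D : Finset V) : Set V) ∧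
        (insert v D).card = n)).card : ZMod 2) = 0 := by
    by_cases hD' : G.IsClique (D : Set V)
    · have h4 := (hS.top D hD' hD (fun t => if G.IsClique (t : Set V) ∧ D ⊆ t ∧ t.card = n then 1
        else 0) (fun t ht => by
          by_contra h5
          exact ht (if_neg h5))).2 ⟨1, fun t h5 h6 h7 => if_pos ⟨h5, h6, h7⟩⟩ D Subset.rfl
      rw [card_eq_sum_ones, Nat.cast_sum, sum_filter]
      refine Eq.trans (sum_congr rfl fun v _ => ?_) h4
      by_cases h5 : G.IsClique ((insert v D : Finset V) : Set V) ∧ (insert v D).card = n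
      · rw [if_pos h5, if_pos ⟨h5.1, subset_insert _ _, h5.2⟩]
        exact Nat.cast_one
      · rw [if_neg h5, if_neg (fun h6 => h5 ⟨h6.1, h6.2.2⟩)]
    · rw [filter_eq_empty_iff.2, card_empty, Nat.cast_zero]
      intro v _ h4
      exact hD' (h4.1.subset (by exact_mod_cast subset_insert v D))
  have h4 : Even (Dᶜ.filter (fun v => G.IsClique ((insert v D : Finset V) : Set V) ∧
        (insert v D).card = n)).card := by
    rw [even_iff_two_dvd]
    exact (ZMod.natCast_eq_zero_iff _ _).1 h3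
  obtain ⟨m, hm⟩ := h4
  rw [hm, add_smul]
  exact hM _

end Pool.Agent.S9
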