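import Pool.Agent.S9.F.Tr
import Pool.Agent.H19.SR.Pair

/-!
# Project S9, block F: duality

`zig` of `Pool.Agent.H19.SR.Zig` for `Y` = the submodule of the functions `f : W → N` with `f (g * w) = ρ g (f w)` and
`r v` = right translation by `R.s v` gives the double chains `y`, `w` and the cochain `a`. Its values at the vertices
whose bits vanish on `τ` define the equivariant cochain `fix a`. The pairing does not change along the zig-zag
(`step`, as `prW_step` of `SR/Pair`).
-/

set_option autoImplicit false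
set_option linter.unusedSectionVars false

open Finset

namespace Pool.Agent.S9

open Pool.Agent.H73.GC Pool.Agent.H19.SR

variable {V : Type} [DecidableEq V] [Fintype V] {G : SimpleGraph V} {W : Type} [Group W]

/-! ### Products of commuting generators -/

private theorem list_insert (R : Rac G W) {C : Finset V} {v : V} (hv : v ∉ C)
    (hC : G.IsClique ((insert v C : Finset V) : Set V)) : ∀ L : List V, L.Nodup →
      ((L.filter fun u => u ∈ insert v C).map R.s).prod =
        ((L.filter fun u => u ∈ C).map R.s).prod * if v ∈ L then R.s v else 1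
  | [], _ => by simp
  | x :: L, hL => by
    have hx : x ∉ L := (List.nodup_cons.1 hL).1
    have ih := list_insert R hv hC L (List.nodup_cons.1 hL).2
    by_cases hxv : x = v
    · subst hxv
      rw [List.filter_cons_of_pos (by simp), List.filter_cons_of_neg (by simpa using hv)]
      rw [List.map_cons, List.prod_cons, ih, if_neg hx, mul_one, if_pos (List.mem_cons_self)]
      have h3 : Commute (R.s x) ((L.filter fun u => u ∈ C).map R.s).prod := by
        refine Commute.list_prod_right _ _ fun y hy => ?_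
        obtain ⟨u, hu, rfl⟩ := List.mem_map.1 hy
        have hu' : u ∈ C := by simpa using (List.mem_filter.1 hu).2
        have hux : x ≠ u := fun h => hv (h ▸ hu')
        refine R.comm x u (hC ?_ ?_ hux)
        · simp
        · simp [hu']
      exact h3
    · have h4 : (v ∈ x :: L) ↔ v ∈ L := by
        rw [List.mem_cons]
        constructor
        · rintro (h | h)
          · exact absurd h.symm hxv
          · exact h
        · exact Or.inr
      have h5 : (if v ∈ x :: L then R.s v else 1) = if v ∈ L then R.s v else 1 := by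
        by_cases h : v ∈ L
        · rw [if_pos h, if_pos (h4.2 h)]
        · rw [if_neg h, if_neg (fun h' => h (h4.1 h'))]
      rw [h5]
      by_cases hxC : x ∈ C
      · rw [List.filter_cons_of_pos (by simp [hxC]), List.filter_cons_of_pos (by simpa using hxC),
          List.map_cons, List.prod_cons, List.map_cons, List.prod_cons, ih, mul_assoc]
      · rw [List.filter_cons_of_neg (by simp [hxC, hxv]), List.filter_cons_of_neg
          (by simpa using hxC), ih]

/-- `gp (B - v) s_v = gp B` for a clique `B` -/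
private theorem gp_erase_mul (R : Rac G W) {B : Finset V} {v : V} (hv : v ∈ B)
    (hB : G.IsClique (B : Set V)) : gp R.s (B.erase v) * R.s v = gp R.s B := by
  have hB' : G.IsClique ((insert v (B.erase v) : Finset V) : Set V) := by
    rw [insert_erase hv]
    exact hB
  have h := list_insert R (notMem_erase v B) hB' (univ : Finset V).toList (Finset.nodup_toList _)
  rw [if_pos (Finset.mem_toList.2 (mem_univ v))] at h
  rw [insert_erase hv] at h
  exact h.symm

/-- `s_v gp (B - v) = gp B` for a clique `B` -/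
private theorem mul_gp_erase (R : Rac G W) {B : Finset V} {v : V} (hv : v ∈ B)
    (hB : G.IsClique (B : Set V)) : R.s v * gp R.s (B.erase v) = gp R.s B := by
  have h3 : Commute (R.s v) (gp R.s (B.erase v)) := by
    refine Commute.list_prod_right _ _ fun y hy => ?_
    obtain ⟨u, hu, rfl⟩ := List.mem_map.1 hy
    have hu' : u ∈ B.erase v := by simpa using (List.mem_filter.1 hu).2
    have hux : v ≠ u := fun h => (mem_erase.1 hu').1 h.symm
    exact R.comm v u (hB hv (mem_erase.1 hu').2 hux)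
  rw [← gp_erase_mul R hv hB]
  exact h3

private theorem gp_empty (R : Rac G W) : gp R.s (∅ : Finset V) = 1 := by
  unfold gp
  simp

private theorem bit_list (R : Rac G W) {u : V} : ∀ L : List V, u ∉ L →
    R.b (L.map R.s).prod u = 0
  | [], _ => by
    rw [List.map_nil, List.prod_nil, R.b_one]
  | x :: L, h => by
    rw [List.mem_cons, not_or] at h
    rw [List.map_cons, List.prod_cons, R.b_mul, R.b_s, if_neg (fun h' => h.1 h'.symm), zero_add]
    exact bit_list R L h.2

private theorem bit_gp (R : Rac G W) {C : Finset V} {u : V} (hu : u ∉ C) :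
    R.b (gp R.s C) u = 0 := by
  unfold gp
  refine bit_list R _ fun h => hu ?_
  simpa using (List.mem_filter.1 h).2

private theorem inv_gp {M : Type} (R : Rac G W) {C : Finset V} {f : W → M}
    (hf : ∀ v ∈ C, ∀ w, f (w * R.s v) = f w) (w : W) : f (w * gp R.s C) = f w := by
  have key : ∀ L : List V, (∀ v ∈ L, v ∈ C) → ∀ w, f (w * (L.map R.s).prod) = f w := by
    intro L
    induction L with
    | nil =>
      intro _ w
      rw [List.map_nil, List.prod_nil, mul_one]
    | cons x L ih =>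
      intro h w
      rw [List.map_cons, List.prod_cons, ← mul_assoc, ih (fun v hv => h v (List.mem_cons_of_mem _ hv)),
        hf x (h x List.mem_cons_self)]
  refine key _ (fun v hv => ?_) w
  simpa using (List.mem_filter.1 hv).2

private theorem clique_sub {A B : Finset V} (h : G.IsClique (A : Set V))
    (hB : B ⊆ A) : G.IsClique (B : Set V) := h.subset (by exact_mod_cast hB)

/-! ### The pairing -/

/-- the pairing of the cocycle `x` (degree `i`) and of the square of the double chain `y` in bidegree `(k, i + k)` -/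
private noncomputable def pr (R : Rac G W) (F : Finset W) {K : Type} [Field K]
    (x : Finset V → W → K) (y : Finset V → Finset V → W → K) : K :=
  PAIR G R F (fun A p => ∑ τ ∈ A.powerset, x (A \ τ) p * y τ A (p * gp R.s (A \ τ)) ^ 2)

private theorem pinv {Γ : Subgroup W} {K : Type} [Field K] {χ : Γ →* Kˣ} {x h : W → K}
    (hx : ∀ g : Γ, ∀ p, x (g * p) = ch (χ⁻¹ ^ 2) g (x p))
    (hh : ∀ g : Γ, ∀ p, h (g * p) = (χ g : K) * h p) (u : W) :
    ∀ g ∈ Γ, ∀ p, x (g * p) * h (g * p * u) ^ 2 = x p * h (p * u) ^ 2 := by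
  intro g hg p
  have h1 : x (g * p) = ((χ ⟨g, hg⟩ : K)⁻¹) ^ 2 * x p := by
    rw [show g * p = ((⟨g, hg⟩ : Γ) : W) * p from rfl, hx]
    unfold ch tw
    simp
  have h2 : h (g * p * u) = (χ ⟨g, hg⟩ : K) * h (p * u) := by
    rw [mul_assoc]
    exact hh ⟨g, hg⟩ (p * u)
  rw [h1, h2]
  have h3 : (χ ⟨g, hg⟩ : K) ≠ 0 := (χ ⟨g, hg⟩).ne_zero
  field_simp

/-- **The pairing does not change along the zig-zag.** -/
private theorem step (R : Rac G W) {Γ : Subgroup W}
    (hb : ∀ g ∈ Γ, ∀ v, R.b g v = 0) {F : Finset W} (hF : IsTr Γ F) {K : Type} [Field K] [CharP K 2]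
    {χ : Γ →* Kˣ} {i k : ℕ} {x : Finset V → W → K} (hx : x ∈ Cc R Γ (ch (χ⁻¹ ^ 2)) i)
    (hx0 : cb R x = 0) {w : Finset V → Finset V → W → K} (hw : IsW G k (i + k + 1) w)
    (hwg : ∀ τ A, ∀ g : Γ, ∀ p, w τ A (g * p) = (χ g : K) * w τ A p)
    {w1 w2 : Finset V → Finset V → W → K}
    (e1 : ∀ τ A p, τ ⊆ A → w1 τ A p = ∑ v ∈ τ, (w (τ.erase v) A p + w (τ.erase v) A (p * R.s v)))
    (e2 : ∀ τ A p, τ ⊆ A → w2 τ A p = ∑ v ∈ Aᶜ, w τ (insert v A) p) :
    pr R F x w1 = pr R F x w2 := by
  classical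
  -- the left hand side
  have hL : pr R F x w1 =
      ∑ A ∈ (univ : Finset (Finset V)).filter (fun A : Finset V => G.IsClique (A : Set V)),
        ∑ p ∈ bs R F A, ∑ σ ∈ A.powerset, ∑ v ∈ A \ σ, x ((A \ σ).erase v) p *
          (w σ A (p * gp R.s ((A \ σ).erase v)) ^ 2 + w σ A (p * gp R.s (A \ σ)) ^ 2) := by
    unfold pr PAIR
    refine sum_congr ?_ fun A hA => sum_congr rfl fun p hp => ?_
    · ext A
      simp
    have hA' : G.IsClique (A : Set V) := (mem_filter.1 hA).2
    have h1 : ∀ τ ∈ A.powerset, x (A \ τ) p * w1 τ A (p * gp R.s (A \ τ)) ^ 2 =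
        ∑ v ∈ τ, x (A \ τ) p * (w (τ.erase v) A (p * gp R.s (A \ τ)) ^ 2 +
          w (τ.erase v) A (p * gp R.s (A \ τ) * R.s v) ^ 2) := by
      intro τ hτ
      have hτ' : τ ⊆ A := mem_powerset.1 hτ
      rw [e1 τ A _ hτ', CharTwo.sum_sq, mul_sum]
      refine sum_congr rfl fun v _ => ?_
      rw [CharTwo.add_sq]
    beta_reduce
    rw [sum_congr rfl h1, sum_sigma', sum_sigma']
    refine sum_bij' (fun x _ => ⟨x.1.erase x.2, x.2⟩) (fun x _ => ⟨insert x.2 x.1, x.2⟩)
      ?_ ?_ ?_ ?_ ?_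
    · rintro ⟨τ, v⟩ h
      rw [mem_sigma, mem_powerset] at h
      rw [mem_sigma, mem_powerset]
      refine ⟨(erase_subset _ _).trans h.1, ?_⟩
      rw [mem_sdiff]
      exact ⟨h.1 h.2, notMem_erase _ _⟩
    · rintro ⟨σ, v⟩ h
      rw [mem_sigma, mem_powerset, mem_sdiff] at h
      rw [mem_sigma, mem_powerset]
      exact ⟨insert_subset h.2.1 h.1, mem_insert_self _ _⟩
    · rintro ⟨τ, v⟩ h
      rw [mem_sigma] at h
      simp only [insert_erase h.2]
    · rintro ⟨σ, v⟩ h
      rw [mem_sigma, mem_powerset, mem_sdiff] at h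
      simp only [erase_insert h.2.2]
    · rintro ⟨τ, v⟩ h
      rw [mem_sigma, mem_powerset] at h
      have h3 : (A \ τ.erase v).erase v = A \ τ := by
        ext u
        simp only [mem_erase, mem_sdiff]
        constructor
        · rintro ⟨h4, h5, h6⟩
          exact ⟨h5, fun h7 => h6 ⟨h4, h7⟩⟩
        · rintro ⟨h4, h5⟩
          exact ⟨fun h6 => h5 (h6 ▸ h.2), h4, fun h6 => h5 h6.2⟩
      have h4 : v ∈ A \ τ.erase v := mem_sdiff.2 ⟨h.1 h.2, notMem_erase _ _⟩
      have h5 := gp_erase_mul R h4 (clique_sub hA' sdiff_subset)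
      show x (A \ τ) p * (w (τ.erase v) A (p * gp R.s (A \ τ)) ^ 2 +
          w (τ.erase v) A (p * gp R.s (A \ τ) * R.s v) ^ 2) =
        x ((A \ τ.erase v).erase v) p *
          (w (τ.erase v) A (p * gp R.s ((A \ τ.erase v).erase v)) ^ 2 +
            w (τ.erase v) A (p * gp R.s (A \ τ.erase v)) ^ 2)
      rw [← h5, h3, mul_assoc p]
  -- the right hand side
  have hR : pr R F x w2 =
      ∑ A ∈ (univ : Finset (Finset V)).filter (fun A : Finset V => G.IsClique (A : Set V)),
        ∑ p ∈ bs R F A, ∑ σ ∈ A.powerset, ∑ v ∈ A \ σ,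
          (x ((A \ σ).erase v) p * w σ A (p * gp R.s ((A \ σ).erase v)) ^ 2 +
            x ((A \ σ).erase v) (p * R.s v) * w σ A (p * gp R.s (A \ σ)) ^ 2) := by
    have h0 : pr R F x w2 =
        ∑ A ∈ (univ : Finset (Finset V)).filter (fun A : Finset V => G.IsClique (A : Set V)),
          ∑ v ∈ Aᶜ, ∑ p ∈ bs R F A, ∑ τ ∈ A.powerset, x (A \ τ) p *
            w τ (insert v A) (p * gp R.s (A \ τ)) ^ 2 := by
      unfold pr PAIR
      refine sum_congr ?_ fun A hA => ?_
      · ext A
        simp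
      beta_reduce
      conv_rhs => rw [sum_comm]
      refine sum_congr rfl fun p _ => ?_
      conv_rhs => rw [sum_comm]
      refine sum_congr rfl fun τ hτ => ?_
      have hτ' : τ ⊆ A := mem_powerset.1 hτ
      rw [e2 τ A _ hτ', CharTwo.sum_sq, mul_sum]
    rw [h0, sum_sigma']
    -- the pairs `(A', v)`, `v ∈ A'`
    have h1 : (∑ q ∈ ((univ : Finset (Finset V)).filter
          (fun A : Finset V => G.IsClique (A : Set V))).sigma (fun A : Finset V => Aᶜ),
        (∑ p ∈ bs R F q.1, ∑ τ ∈ q.1.powerset, x (q.1 \ τ) p *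
            w τ (insert q.2 q.1) (p * gp R.s (q.1 \ τ)) ^ 2 : K)) =
        ∑ q ∈ ((univ : Finset (Finset V)).filter
          (fun A : Finset V => G.IsClique (A : Set V))).sigma (fun A : Finset V => A),
        (∑ p ∈ bs R F (q.1.erase q.2), ∑ τ ∈ (q.1.erase q.2).powerset, x (q.1.erase q.2 \ τ) p *
            w τ q.1 (p * gp R.s (q.1.erase q.2 \ τ)) ^ 2 : K) := by
      rw [← sum_filter_add_sum_filter_not (((univ : Finset (Finset V)).filter
          (fun A : Finset V => G.IsClique (A : Set V))).sigma (fun A : Finset V => Aᶜ))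
          (fun q => G.IsClique ((insert q.2 q.1 : Finset V) : Set V))]
      have h2 : (∑ q ∈ (((univ : Finset (Finset V)).filter
          (fun A : Finset V => G.IsClique (A : Set V))).sigma (fun A : Finset V => Aᶜ)).filter
          (fun q => ¬ G.IsClique ((insert q.2 q.1 : Finset V) : Set V)),
          (∑ p ∈ bs R F q.1, ∑ τ ∈ q.1.powerset, x (q.1 \ τ) p *
            w τ (insert q.2 q.1) (p * gp R.s (q.1 \ τ)) ^ 2 : K)) = 0 := by
        refine sum_eq_zero fun q hq => ?_
        refine sum_eq_zero fun p _ => sum_eq_zero fun τ _ => ?_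
        have h3 : w τ (insert q.2 q.1) = 0 := by
          by_contra h4
          exact (mem_filter.1 hq).2 (hw _ _ h4).2.1
        rw [h3]
        simp
      rw [h2, add_zero]
      refine sum_bij' (fun x _ => ⟨insert x.2 x.1, x.2⟩) (fun x _ => ⟨x.1.erase x.2, x.2⟩)
        ?_ ?_ ?_ ?_ ?_
      · rintro ⟨A, v⟩ h
        simp only [mem_filter, mem_sigma, mem_univ, true_and, mem_compl] at h ⊢
        exact ⟨h.2, mem_insert_self _ _⟩
      · rintro ⟨A, v⟩ h
        simp only [mem_filter, mem_sigma, mem_univ, true_and, mem_compl] at h ⊢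
        refine ⟨⟨clique_sub h.1 (erase_subset _ _), notMem_erase _ _⟩, ?_⟩
        rw [insert_erase h.2]
        exact h.1
      · rintro ⟨A, v⟩ h
        simp only [mem_filter, mem_sigma, mem_univ, true_and, mem_compl] at h
        simp only [erase_insert h.1.2]
      · rintro ⟨A, v⟩ h
        simp only [mem_sigma, mem_filter, mem_univ, true_and] at h
        simp only [insert_erase h.2]
      · rintro ⟨A, v⟩ h
        simp only [mem_filter, mem_sigma, mem_univ, true_and, mem_compl] at h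
        simp only [erase_insert h.1.2]
    rw [h1, ← sum_sigma' _ _ (fun A v => ∑ p ∈ bs R F (A.erase v), ∑ τ ∈ (A.erase v).powerset,
      x (A.erase v \ τ) p * w τ A (p * gp R.s (A.erase v \ τ)) ^ 2)]
    refine sum_congr rfl fun A hA => ?_
    have hA' : G.IsClique (A : Set V) := (mem_filter.1 hA).2
    have h2 : ∀ v ∈ A, ∑ p ∈ bs R F (A.erase v), ∑ τ ∈ (A.erase v).powerset,
        x (A.erase v \ τ) p * w τ A (p * gp R.s (A.erase v \ τ)) ^ 2 =
        ∑ p ∈ bs R F A, ∑ τ ∈ (A.erase v).powerset,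
          (x ((A \ τ).erase v) p * w τ A (p * gp R.s ((A \ τ).erase v)) ^ 2 +
            x ((A \ τ).erase v) (p * R.s v) * w τ A (p * gp R.s (A \ τ)) ^ 2) := by
      intro v hv
      rw [sum_bs R hF hb (f := fun p => ∑ τ ∈ (A.erase v).powerset,
        x (A.erase v \ τ) p * w τ A (p * gp R.s (A.erase v \ τ)) ^ 2) (fun g hg p =>
          sum_congr rfl fun τ _ => pinv (hx.2.2 _) (hwg _ _) _ g hg p) (notMem_erase v A),
        insert_erase hv]
      refine sum_congr rfl fun p _ => ?_
      rw [← sum_add_distrib]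
      refine sum_congr rfl fun τ hτ => ?_
      have h3 : A.erase v \ τ = (A \ τ).erase v := by
        rw [erase_sdiff_comm]
      have h4 : v ∈ A \ τ :=
        mem_sdiff.2 ⟨hv, fun h => notMem_erase v A (mem_powerset.1 hτ h)⟩
      rw [h3, ← mul_gp_erase R h4 (clique_sub hA' sdiff_subset), mul_assoc p]
    rw [sum_congr rfl h2, sum_comm]
    refine sum_congr rfl fun p _ => ?_
    rw [sum_sigma', sum_sigma']
    refine sum_bij' (fun x _ => ⟨x.2, x.1⟩) (fun x _ => ⟨x.2, x.1⟩) ?_ ?_ ?_ ?_ ?_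
    · rintro ⟨v, τ⟩ h
      rw [mem_sigma, mem_powerset] at h
      rw [mem_sigma, mem_powerset, mem_sdiff]
      exact ⟨h.2.trans (erase_subset _ _), h.1, fun h3 => notMem_erase v A (h.2 h3)⟩
    · rintro ⟨τ, v⟩ h
      rw [mem_sigma, mem_powerset, mem_sdiff] at h
      rw [mem_sigma, mem_powerset]
      exact ⟨h.2.1, fun u hu => mem_erase.2 ⟨fun h3 => h.2.2 (by
        have h4 : u = v := h3
        rw [← h4]
        exact hu), h.1 hu⟩⟩
    · rintro ⟨v, τ⟩ h
      rfl
    · rintro ⟨τ, v⟩ h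
      rfl
    · rintro ⟨v, τ⟩ h
      rfl
  rw [hL, hR]
  refine sum_congr rfl fun A hA => sum_congr rfl fun p hp => sum_congr rfl fun σ hσ => ?_
  have hA' : G.IsClique (A : Set V) := (mem_filter.1 hA).2
  have h5 : ∑ v ∈ A \ σ, (x ((A \ σ).erase v) p + x ((A \ σ).erase v) (p * R.s v)) = 0 := by
    have h6 := congrFun (congrFun hx0 (A \ σ)) p
    unfold cb at h6
    rw [if_pos (clique_sub hA' sdiff_subset)] at h6
    exact h6
  rw [← sub_eq_zero, ← sum_sub_distrib]
  have h6 : ∀ v ∈ A \ σ, x ((A \ σ).erase v) p *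
      (w σ A (p * gp R.s ((A \ σ).erase v)) ^ 2 + w σ A (p * gp R.s (A \ σ)) ^ 2) -
      (x ((A \ σ).erase v) p * w σ A (p * gp R.s ((A \ σ).erase v)) ^ 2 +
        x ((A \ σ).erase v) (p * R.s v) * w σ A (p * gp R.s (A \ σ)) ^ 2) =
      (x ((A \ σ).erase v) p + x ((A \ σ).erase v) (p * R.s v)) *
        w σ A (p * gp R.s (A \ σ)) ^ 2 := by
    intro v _
    rw [CharTwo.sub_eq_add]
    have h7 : x ((A \ σ).erase v) p * w σ A (p * gp R.s ((A \ σ).erase v)) ^ 2 +
        x ((A \ σ).erase v) p * w σ A (p * gp R.s ((A \ σ).erase v)) ^ 2 = 0 :=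
      CharTwo.add_self_eq_zero _
    linear_combination h7
  rw [sum_congr rfl h6, ← sum_mul, h5, zero_mul]

/-! ### The module of the equivariant functions -/

namespace Du

section Yf

variable (Γ : Subgroup W) {K : Type} [Field K] {N : Type} [AddCommGroup N] [Module K N]
  (ρ : Γ →* Module.End K N)

/-- the equivariant functions on `W` -/
def Yf : Submodule K (W → N) where
  carrier := {f | ∀ g : Γ, ∀ w, f (g * w) = ρ g (f w)}
  zero_mem' := fun g w => by
    show (0 : N) = ρ g 0
    rw [map_zero]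
  add_mem' := by
    intro f f' h h' g w
    show f (g * w) + f' (g * w) = ρ g (f w + f' w)
    rw [h, h', map_add]
  smul_mem' := by
    intro c f h g w
    show c • f (g * w) = ρ g (c • f w)
    rw [h, map_smul]

/-- the right translation by `s v` -/
def rt (R : Rac G W) (v : V) : Yf Γ ρ →ₗ[K] Yf Γ ρ where
  toFun f := ⟨fun w => f.1 (w * R.s v), fun g w => by
    show f.1 (g * w * R.s v) = ρ g (f.1 (w * R.s v))
    rw [mul_assoc, f.2 g]⟩
  map_add' f f' := rfl
  map_smul' c f := rfl

theorem rt_val (R : Rac G W) (v : V) (f : Yf Γ ρ) (w : W) :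
    (rt Γ ρ R v f).1 w = f.1 (w * R.s v) := rfl

theorem rt_sq (R : Rac G W) (v : V) (f : Yf Γ ρ) : rt Γ ρ R v (rt Γ ρ R v f) = f := by
  refine Subtype.ext (funext fun w => ?_)
  rw [rt_val, rt_val, mul_assoc, R.sq, mul_one]

theorem rt_comm (R : Rac G W) (u v : V) (h : G.Adj u v) (f : Yf Γ ρ) :
    rt Γ ρ R u (rt Γ ρ R v f) = rt Γ ρ R v (rt Γ ρ R u f) := by
  refine Subtype.ext (funext fun w => ?_)
  rw [rt_val, rt_val, rt_val, rt_val, mul_assoc, mul_assoc, R.comm u v h]

theorem mem_Zs' (R : Rac G W) {i : ℕ} {z : Finset V → W → N} (hz : z ∈ Zc R Γ ρ i) :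
    (fun A => (⟨z A, hz.1.2.2 A⟩ : Yf Γ ρ)) ∈ Pool.Agent.H77.SW.Zs K G i (rt Γ ρ R) := by
  refine Pool.Agent.H77.SW.mem_Zs.2 ⟨fun A h => hz.1.1 A fun h0 => h (Subtype.ext h0),
    fun A v hv => Subtype.ext (funext fun w => ?_), fun A => Subtype.ext (funext fun w => ?_)⟩
  · exact hz.1.2.1 A v hv w
  · have h1 : bd K z = 0 := hz.2
    have h2 := congrFun (congrFun h1 A) w
    rw [bd_apply] at h2
    have h3 : (((∑ v ∈ Aᶜ, (⟨z (insert v A), hz.1.2.2 (insert v A)⟩ : Yf Γ ρ)) : Yf Γ ρ).1) w =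
        ∑ v ∈ Aᶜ, z (insert v A) w := by
      rw [Submodule.coe_sum, Finset.sum_apply]
    rw [h3]
    exact h2

end Yf

end Du

open Du

/-! ### The equivariant cochain of the zig-zag -/

open Classical in
/-- the generators of `τ` with nonzero bits -/
private noncomputable def nb (R : Rac G W) (τ : Finset V) (w : W) : Finset V :=
  τ.filter fun v => R.b w v ≠ 0

private theorem mem_nb (R : Rac G W) {τ : Finset V} {w : W} {v : V} :
    v ∈ nb R τ w ↔ v ∈ τ ∧ R.b w v ≠ 0 := by
  unfold nb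
  rw [mem_filter]

private theorem nb_erase (R : Rac G W) (τ : Finset V) (w : W) (v : V) :
    nb R (τ.erase v) w = (nb R τ w).erase v := by
  ext u
  rw [mem_nb, mem_erase, mem_erase, mem_nb, and_assoc]

private theorem nb_erase_mul (R : Rac G W) (τ : Finset V) (w : W) (v : V) :
    nb R (τ.erase v) (w * R.s v) = (nb R τ w).erase v := by
  ext u
  rw [mem_nb, mem_erase, mem_erase, mem_nb, and_assoc]
  refine and_congr_right fun h => and_congr_right fun _ => ?_
  rw [R.b_mul, R.b_s, if_neg (Ne.symm h), add_zero]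

private theorem zm (a : ZMod 2) : a ≠ 0 ↔ a = 1 := by
  revert a
  decide

private theorem nb_mul (R : Rac G W) {τ : Finset V} (hτ : G.IsClique (τ : Set V)) {v : V}
    (hv : v ∈ τ) (w : W) : w * R.s v * gp R.s (nb R τ (w * R.s v)) = w * gp R.s (nb R τ w) := by
  have hsub : ∀ w, G.IsClique ((nb R τ w : Finset V) : Set V) := fun w =>
    clique_sub hτ fun u hu => ((mem_nb R).1 hu).1
  have hb1 : R.b (w * R.s v) v = R.b w v + 1 := by rw [R.b_mul, R.b_s, if_pos rfl]
  have hne : ∀ u, u ≠ v → R.b (w * R.s v) u = R.b w u := fun u hu => by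
    rw [R.b_mul, R.b_s, if_neg (Ne.symm hu), add_zero]
  have key : ∀ w w' : W, R.b w' v = R.b w v + 1 → (∀ u, u ≠ v → R.b w' u = R.b w u) →
      R.b w v = 1 → (nb R τ w).erase v = nb R τ w' := by
    intro w w' h1 h2 h3
    ext u
    rw [mem_erase, mem_nb, mem_nb]
    by_cases hu : u = v
    · subst hu
      have h4 : R.b w' u = 0 := by
        rw [h1, h3]
        decide
      simp [h4]
    · rw [h2 u hu]
      tauto
  by_cases h : R.b w v = 1
  · have h1 := key w (w * R.s v) hb1 hne h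
    have hm : v ∈ nb R τ w := (mem_nb R).2 ⟨hv, by rw [h]; exact one_ne_zero⟩
    rw [← h1, mul_assoc, mul_gp_erase R hm (hsub w)]
  · have h0 : R.b w v = 0 := by
      by_contra h'
      exact h ((zm _).1 h')
    have h1 := key (w * R.s v) w (by rw [hb1, h0]; decide) (fun u hu => (hne u hu).symm)
      (by rw [hb1, h0, zero_add])
    have hm : v ∈ nb R τ (w * R.s v) := (mem_nb R).2 ⟨hv, by rw [hb1, h0, zero_add]; exact one_ne_zero⟩
    rw [← mul_gp_erase R hm (hsub _), h1, ← mul_assoc, mul_assoc w (R.s v) (R.s v), R.sq, mul_one]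

section Fix

variable {Γ : Subgroup W} {K : Type} [Field K] {N : Type} [AddCommGroup N] [Module K N]
  {ρ : Γ →* Module.End K N}

/-- the value at the vertex of the cell with vanishing bits -/
private noncomputable def fix (R : Rac G W) (a : Finset V → Yf Γ ρ) : Finset V → W → N :=
  fun τ w => (a τ).1 (w * gp R.s (nb R τ w))

private theorem fix_mem (R : Rac G W) (hb : ∀ g ∈ Γ, ∀ v, R.b g v = 0) {a : Finset V → Yf Γ ρ}
    {m : ℕ} (ha : ∀ τ, a τ ≠ 0 → G.IsClique (τ : Set V) ∧ τ.card = m) :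
    fix R a ∈ Cc R Γ ρ m := by
  have h0 : ∀ τ, fix R a τ ≠ 0 → a τ ≠ 0 := by
    intro τ h h'
    refine h (funext fun w => ?_)
    unfold fix
    rw [h']
    rfl
  refine (mem_Cc R).2 ⟨fun τ h => ha τ (h0 τ h), fun τ v hv w => ?_, fun τ g w => ?_⟩
  · by_cases h : fix R a τ = 0
    · rw [h]
      rfl
    · unfold fix
      rw [nb_mul R (ha τ (h0 τ h)).1 hv]
  · unfold fix
    have h1 : nb R τ (g * w) = nb R τ w := by
      ext u
      rw [mem_nb, mem_nb, R.b_mul, hb g g.2, zero_add]
    rw [h1, mul_assoc]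
    exact (a τ).2 g _

private theorem fix_eq (R : Rac G W) (a : Finset V → Yf Γ ρ) {τ : Finset V} {w : W}
    (h : ∀ v ∈ τ, R.b w v = 0) : fix R a τ w = (a τ).1 w := by
  unfold fix
  have h1 : nb R τ w = ∅ := by
    refine eq_empty_of_forall_notMem fun u hu => ?_
    exact ((mem_nb R).1 hu).2 (h u ((mem_nb R).1 hu).1)
  rw [h1, gp_empty, mul_one]

private theorem fix_cb (R : Rac G W) {a : Finset V → Yf Γ ρ}
    (hc : ∀ τ : Finset V, G.IsClique (τ : Set V) →
      ∑ v ∈ τ, (a (τ.erase v) + rt Γ ρ R v (a (τ.erase v))) = 0) : cb R (fix R a) = 0 := by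
  classical
  funext τ w
  unfold cb
  by_cases hτ : G.IsClique (τ : Set V)
  swap
  · rw [if_neg hτ]
    rfl
  rw [if_pos hτ]
  have h1 := hc τ hτ
  have h2 : (((∑ v ∈ τ, (a (τ.erase v) + rt Γ ρ R v (a (τ.erase v)))) : Yf Γ ρ).1)
      (w * gp R.s (nb R τ w)) = 0 := by
    rw [h1]
    rfl
  rw [Submodule.coe_sum, Finset.sum_apply] at h2
  refine Eq.trans (sum_congr rfl fun v hv => ?_) h2
  have hsub : G.IsClique ((nb R τ w : Finset V) : Set V) :=
    clique_sub hτ fun u hu => ((mem_nb R).1 hu).1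
  have h3 : fix R a (τ.erase v) w = (a (τ.erase v)).1 (w * gp R.s ((nb R τ w).erase v)) := by
    unfold fix
    rw [nb_erase]
  have h4 : fix R a (τ.erase v) (w * R.s v) =
      (a (τ.erase v)).1 (w * R.s v * gp R.s ((nb R τ w).erase v)) := by
    unfold fix
    rw [nb_erase_mul]
  rw [h3, h4, Submodule.coe_add, Pi.add_apply, rt_val]
  by_cases hm : v ∈ nb R τ w
  · rw [mul_assoc w (R.s v), mul_gp_erase R hm hsub, mul_assoc w (gp R.s (nb R τ w)),
      ← gp_erase_mul R hm hsub, mul_assoc (gp R.s ((nb R τ w).erase v)), R.sq, mul_one, add_comm]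
  · rw [erase_eq_of_notMem hm]
    have h5 : insert v (nb R τ w) ⊆ τ := by
      intro u hu
      rcases mem_insert.1 hu with h | h
      · rw [h]
        exact hv
      · exact ((mem_nb R).1 h).1
    have h6 : v ∈ insert v (nb R τ w) := mem_insert_self _ _
    have h7 := gp_erase_mul R h6 (clique_sub hτ h5)
    have h8 := mul_gp_erase R h6 (clique_sub hτ h5)
    rw [erase_insert hm] at h7 h8
    rw [mul_assoc w (R.s v), h8, mul_assoc w (gp R.s _), h7]

end Fix

/-- the duality for every zig-zag; `B`: a set of simplices on which the cochain `a` of the zig-zag vanishes -/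
theorem Du.dual_core (R : Rac G W) {n : ℕ} {Γ : Subgroup W}
    (hb : ∀ g ∈ Γ, ∀ v, R.b g v = 0) {F : Finset W} (hF : IsTr Γ F) {K : Type} [Field K] [CharP K 2]
    {N : Type} [AddCommGroup N] [Module K N] (ρ : Γ →* Module.End K N) {i : ℕ} (hi : i ≤ n)
    {z : Finset V → W → N} (hz : z ∈ Zc R Γ ρ i) (B : Finset V → Prop)
    (h : ∃ (y w : ℕ → Finset V → Finset V → Yf Γ ρ) (a : Finset V → Yf Γ ρ),
      (∀ k ≤ n - i, IsW G k (i + k) (y k)) ∧ (∀ k < n - i, IsW G k (i + k + 1) (w k)) ∧
      (∀ A, y 0 ∅ A = (⟨z A, hz.1.2.2 A⟩ : Yf Γ ρ)) ∧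
      (∀ k < n - i, y k = Pool.Agent.H19.SR.e2 (w k)) ∧
      (∀ k < n - i, y (k + 1) = Pool.Agent.H19.SR.e1 (rt Γ ρ R) (w k)) ∧
      (∀ τ, a τ ≠ 0 → G.IsClique (τ : Set V) ∧ τ.card = n - i) ∧
      (∀ τ, B τ → a τ = 0) ∧
      (∀ τ A : Finset V, τ ⊆ A → G.IsClique (A : Set V) → A.card = n → y (n - i) τ A = a τ) ∧
      ∀ τ : Finset V, G.IsClique (τ : Set V) →
        ∑ v ∈ τ, (a (τ.erase v) + rt Γ ρ R v (a (τ.erase v))) = 0) :
    ∃ a ∈ Cc R Γ ρ (n - i), cb R a = 0 ∧ (∀ τ, B τ → a τ = 0) ∧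
      ∀ (χ : Γ →* Kˣ) (π : N →ₗ[K] K), (∀ g y, π (ρ g y) = (χ g : K) * π y) →
        ∀ x ∈ Cc R Γ (ch (χ⁻¹ ^ 2)) i, cb R x = 0 →
          PAIR G R F (fun A w => x A w * π (z A w) ^ 2) =
            INT G R F n (fun A w => ∑ τ ∈ A.powersetCard i,
              x τ w * π (a (A \ τ) (w * gp R.s τ)) ^ 2) := by
  classical
  obtain ⟨y, w, a, hy, hw, hy0, hyw, hyw', ha, haB, hay, hac⟩ := h
  refine ⟨fix R a, fix_mem R hb ha, fix_cb R hac, fun τ hτ => ?_, fun χ π hπ x hx hx0 => ?_⟩
  · funext w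
    unfold fix
    rw [haB τ hτ]
    rfl
  -- the scalar double chains
  set S : (Finset V → Finset V → Yf Γ ρ) → Finset V → Finset V → W → K :=
    fun f τ A p => π ((f τ A).1 p) with hSd
  have hSW : ∀ {c d : ℕ} {f : Finset V → Finset V → Yf Γ ρ}, IsW G c d f → IsW G c d (S f) := by
    intro c d f hf τ A h
    refine hf τ A fun h' => h ?_
    funext p
    show π ((f τ A).1 p) = 0
    rw [h']
    exact map_zero π
  have hSg : ∀ (f : Finset V → Finset V → Yf Γ ρ) (τ A : Finset V) (g : Γ) (p : W),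
      S f τ A (g * p) = (χ g : K) * S f τ A p := by
    intro f τ A g p
    show π ((f τ A).1 (g * p)) = (χ g : K) * π ((f τ A).1 p)
    rw [(f τ A).2 g p, hπ]
  have hst : ∀ k < n - i, pr R F x (S (y (k + 1))) = pr R F x (S (y k)) := by
    intro k hk
    refine step R hb hF hx hx0 (w := S (w k)) (hSW (hw k hk)) (hSg _) ?_ ?_
    · intro τ A p hτ
      show π ((y (k + 1) τ A).1 p) = ∑ v ∈ τ, (π ((w k (τ.erase v) A).1 p) +
        π ((w k (τ.erase v) A).1 (p * R.s v)))
      rw [hyw' k hk]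
      unfold Pool.Agent.H19.SR.e1
      rw [if_pos hτ, Submodule.coe_sum, Finset.sum_apply, map_sum]
      refine sum_congr rfl fun v _ => ?_
      rw [Submodule.coe_add, Pi.add_apply, map_add, rt_val]
    · intro τ A p hτ
      show π ((y k τ A).1 p) = ∑ v ∈ Aᶜ, π ((w k τ (insert v A)).1 p)
      rw [hyw k hk]
      unfold Pool.Agent.H19.SR.e2
      rw [if_pos hτ, Submodule.coe_sum, Finset.sum_apply, map_sum]
  have hall : ∀ k ≤ n - i, pr R F x (S (y k)) = pr R F x (S (y 0)) := by
    intro k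
    induction k with
    | zero => exact fun _ => rfl
    | succ k ih => exact fun hk => (hst k (by omega)).trans (ih (by omega))
  -- the beginning
  have h0 : pr R F x (S (y 0)) = PAIR G R F (fun A w => x A w * π (z A w) ^ 2) := by
    unfold pr PAIR
    refine sum_congr rfl fun A _ => sum_congr rfl fun p _ => ?_
    beta_reduce
    rw [sum_eq_single_of_mem ∅ (empty_mem_powerset A)]
    · rw [sdiff_empty]
      have h1 : S (y 0) ∅ A (p * gp R.s A) = π (z A p) := by
        show π ((y 0 ∅ A).1 (p * gp R.s A)) = _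
        rw [hy0 A]
        show π (z A (p * gp R.s A)) = _
        rw [inv_gp R (f := z A) (fun v hv w => hz.1.2.1 A v hv w)]
      rw [h1]
    · intro τ _ hτ
      have h1 : S (y 0) τ A = 0 := by
        by_contra h
        exact hτ (card_eq_zero.1 (hSW (hy 0 (Nat.zero_le _)) τ A h).2.2.1)
      rw [h1]
      simp
  -- the end
  have hn : pr R F x (S (y (n - i))) = INT G R F n (fun A w => ∑ τ ∈ A.powersetCard i,
      x τ w * π (fix R a (A \ τ) (w * gp R.s τ)) ^ 2) := by
    unfold pr PAIR INT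
    rw [← sum_filter_add_sum_filter_not ((univ : Finset (Finset V)).filter
      (fun A : Finset V => G.IsClique (A : Set V))) (fun A => A.card = n)]
    have h1 : (∑ A ∈ ((univ : Finset (Finset V)).filter
        (fun A : Finset V => G.IsClique (A : Set V))).filter (fun A => ¬ A.card = n),
        ∑ p ∈ bs R F A, (fun A p => ∑ τ ∈ A.powerset, x (A \ τ) p *
          S (y (n - i)) τ A (p * gp R.s (A \ τ)) ^ 2) A p) = 0 := by
      refine sum_eq_zero fun A hA => sum_eq_zero fun p _ => sum_eq_zero fun τ _ => ?_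
      have h2 : S (y (n - i)) τ A = 0 := by
        by_contra h
        have h3 := (hSW (hy (n - i) le_rfl) τ A h).2.2.2
        exact (mem_filter.1 hA).2 (by omega)
      rw [h2]
      simp
    rw [h1, add_zero, filter_filter]
    refine sum_congr rfl fun A hA => sum_congr rfl fun p hp => ?_
    beta_reduce
    obtain ⟨hA1, hA2⟩ := (mem_filter.1 hA).2
    have hp' := ((mem_bs R).1 hp).2
    have h2 : ∑ τ ∈ A.powerset, x (A \ τ) p * S (y (n - i)) τ A (p * gp R.s (A \ τ)) ^ 2 =
        ∑ τ ∈ A.powersetCard (n - i), x (A \ τ) p *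
          S (y (n - i)) τ A (p * gp R.s (A \ τ)) ^ 2 := by
      symm
      refine sum_subset (fun τ h => mem_powerset.2 (mem_powersetCard.1 h).1) fun τ h3 h4 => ?_
      have h5 : S (y (n - i)) τ A = 0 := by
        by_contra h
        exact h4 (mem_powersetCard.2 ⟨mem_powerset.1 h3, (hSW (hy (n - i) le_rfl) τ A h).2.2.1⟩)
      rw [h5]
      simp
    rw [h2]
    refine sum_bij' (fun τ _ => A \ τ) (fun τ _ => A \ τ) ?_ ?_ ?_ ?_ ?_
    · intro τ hτ
      obtain ⟨h3, h4⟩ := mem_powersetCard.1 hτ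
      refine mem_powersetCard.2 ⟨sdiff_subset, ?_⟩
      rw [card_sdiff_of_subset h3]
      omega
    · intro τ hτ
      obtain ⟨h3, h4⟩ := mem_powersetCard.1 hτ
      refine mem_powersetCard.2 ⟨sdiff_subset, ?_⟩
      rw [card_sdiff_of_subset h3]
      omega
    · intro τ hτ
      exact Finset.sdiff_sdiff_eq_self (mem_powersetCard.1 hτ).1
    · intro τ hτ
      exact Finset.sdiff_sdiff_eq_self (mem_powersetCard.1 hτ).1
    · intro τ hτ
      obtain ⟨h3, h4⟩ := mem_powersetCard.1 hτ
      rw [Finset.sdiff_sdiff_eq_self h3]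
      have h5 : fix R a τ (p * gp R.s (A \ τ)) = (a τ).1 (p * gp R.s (A \ τ)) := by
        refine fix_eq R a fun v hv => ?_
        rw [R.b_mul, hp' v (h3 hv), bit_gp R (fun h => (mem_sdiff.1 h).2 hv), add_zero]
      have h6 : S (y (n - i)) τ A = fun p => π ((a τ).1 p) := by
        funext p
        show π ((y (n - i) τ A).1 p) = _
        rw [hay τ A h3 hA1 hA2]
      rw [h5, h6]
  rw [← h0, ← hall (n - i) le_rfl, hn]

/-- **Duality** for spheres -/
theorem dual (R : Rac G W) {n : ℕ} (hS : IsSph G n) {Γ : Subgroup W}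
    (hb : ∀ g ∈ Γ, ∀ v, R.b g v = 0) {F : Finset W} (hF : IsTr Γ F) {K : Type} [Field K] [CharP K 2]
    {N : Type} [AddCommGroup N] [Module K N] (ρ : Γ →* Module.End K N) {i : ℕ} (hi : i ≤ n)
    {z : Finset V → W → N} (hz : z ∈ Zc R Γ ρ i) :
    ∃ a ∈ Cc R Γ ρ (n - i), cb R a = 0 ∧
      ∀ (χ : Γ →* Kˣ) (π : N →ₗ[K] K), (∀ g y, π (ρ g y) = (χ g : K) * π y) →
        ∀ x ∈ Cc R Γ (ch (χ⁻¹ ^ 2)) i, cb R x = 0 →
          PAIR G R F (fun A w => x A w * π (z A w) ^ 2) =
            INT G R F n (fun A w => ∑ τ ∈ A.powersetCard i,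
              x τ w * π (a (A \ τ) (w * gp R.s τ)) ^ 2) := by
  obtain ⟨y, w, a, h1, h2, h3, h4, h5, h6, h7, h8⟩ :=
    zig hS (rt_sq Γ ρ R) (fun u v h => rt_comm Γ ρ R u v h) hi (mem_Zs' Γ ρ R hz)
  obtain ⟨a', h9, h10, _, h11⟩ := Du.dual_core R hb hF ρ hi hz (fun _ => False)
    ⟨y, w, a, h1, h2, h3, h4, h5, h6, fun τ hτ => hτ.elim, h7, h8⟩
  exact ⟨a', h9, h10, h11⟩

end Pool.Agent.S9
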