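import Pool.Agent.H19.SR.Zig

/-!
# Project S9, block F: the zig-zag over a disc

The zig-zag of `Pool.Agent.H19.SR.Zig` with a set `B` of boundary simplices: the cycles in the top degree of the link
of `s` are constant, and `0` if `s` is in the boundary. The cochain `a` of the zig-zag is `0` on `B`.
-/

set_option autoImplicit false
set_option linter.unusedSectionVars false

open Finset

namespace Pool.Agent.S9

open Pool.Agent.H19.SR

variable {V : Type} [DecidableEq V] [Fintype V] {K : Type} [Field K] [CharP K 2] {Y : Type}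
  [AddCommGroup Y] [Module K Y]

/-- what the zig-zag needs of a disc with the boundary `B` -/
structure ZH (G : SimpleGraph V) (n : ℕ) (B : Finset V → Prop) : Prop where
  facet : ∀ s : Finset V, G.IsClique (s : Set V) → ∃ t : Finset V, s ⊆ t ∧
    G.IsClique (t : Set V) ∧ t.card = n
  low : ∀ s : Finset V, G.IsClique (s : Set V) → ∀ j < n, ∀ f : Finset V → ZMod 2,
    (∀ t, f t ≠ 0 → G.IsClique (t : Set V) ∧ s ⊆ t ∧ t.card = j) →
    (∀ t, s ⊆ t → ∑ v ∈ tᶜ, f (insert v t) = 0) →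
    ∃ u : Finset V → ZMod 2, (∀ t, u t ≠ 0 → G.IsClique (t : Set V) ∧ s ⊆ t ∧ t.card = j + 1) ∧
      ∀ t, s ⊆ t → ∑ v ∈ tᶜ, u (insert v t) = f t
  top : ∀ s : Finset V, G.IsClique (s : Set V) → ∀ f : Finset V → ZMod 2,
    (∀ t, f t ≠ 0 → G.IsClique (t : Set V) ∧ s ⊆ t ∧ t.card = n) →
    (∀ t, s ⊆ t → ∑ v ∈ tᶜ, f (insert v t) = 0) →
      ∃ c, (B s → c = 0) ∧ ∀ t : Finset V, G.IsClique (t : Set V) → s ⊆ t → t.card = n → f t = c

/-- extension of the coefficients from `ZMod 2` to `Y`, cycles below the top degree -/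
private theorem ext_low {G : SimpleGraph V} {n : ℕ} {B : Finset V → Prop} (hS : ZH G n B) {Y : Type} [AddCommGroup Y]
    (hY : ∀ y : Y, y + y = 0) {τ : Finset V} (hτ : G.IsClique (τ : Set V)) {b : ℕ} (hb : b < n)
    {f : Finset V → Y} (hf : ∀ t, f t ≠ 0 → G.IsClique (t : Set V) ∧ τ ⊆ t ∧ t.card = b)
    (h2 : ∀ t, τ ⊆ t → ∑ v ∈ tᶜ, f (insert v t) = 0) :
    ∃ u : Finset V → Y, (∀ t, u t ≠ 0 → G.IsClique (t : Set V) ∧ τ ⊆ t ∧ t.card = b + 1) ∧
      ∀ t, τ ⊆ t → ∑ v ∈ tᶜ, u (insert v t) = f t := by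
  classical
  letI : Module (ZMod 2) Y := AddCommGroup.zmodModule (fun y => by rw [two_nsmul]; exact hY y)
  set β' := Module.Basis.ofVectorSpace (ZMod 2) Y with hB
  have key : ∀ β, ∃ u : Finset V → ZMod 2,
      (∀ t, u t ≠ 0 → G.IsClique (t : Set V) ∧ τ ⊆ t ∧ t.card = b + 1) ∧
      ∀ t, τ ⊆ t → ∑ v ∈ tᶜ, u (insert v t) = β'.repr (f t) β := by
    intro β
    refine hS.low τ hτ b hb (fun t => β'.repr (f t) β) ?_ ?_
    · intro t ht
      refine hf t fun h0 => ht ?_
      show β'.repr (f t) β = 0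
      rw [h0, map_zero]
      rfl
    · intro t ht
      have h3 := congrArg (fun y => β'.repr y β) (h2 t ht)
      simp only [map_sum, map_zero, Finsupp.finsetSum_apply] at h3
      exact h3
  choose U hU1 hU2 using key
  set S : Finset _ := (univ : Finset (Finset V)).biUnion fun A => (β'.repr (f A)).support with hS'
  refine ⟨fun t => ∑ β ∈ S, U β t • β' β, ?_, ?_⟩
  · intro t ht
    obtain ⟨β, _, hβ⟩ := exists_ne_zero_of_sum_ne_zero ht
    refine hU1 β t fun h0 => hβ ?_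
    rw [h0, zero_smul]
  · intro t ht
    show ∑ v ∈ tᶜ, ∑ β ∈ S, U β (insert v t) • β' β = f t
    rw [sum_comm]
    have h3 : ∀ β ∈ S, ∑ v ∈ tᶜ, U β (insert v t) • β' β = β'.repr (f t) β • β' β := by
      intro β _
      rw [← sum_smul, hU2 β t ht]
    rw [sum_congr rfl h3]
    conv_rhs => rw [← β'.linearCombination_repr (f t)]
    rw [Finsupp.linearCombination_apply, Finsupp.sum]
    symm
    refine sum_subset ?_ ?_
    · rw [hS']
      intro β hβ
      rw [mem_biUnion]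
      exact ⟨t, mem_univ _, hβ⟩
    · intro β _ hβ
      rw [Finsupp.notMem_support_iff.1 hβ, zero_smul]

/-- extension of the coefficients from `ZMod 2` to `Y`, cycles in the top degree -/
private theorem ext_top {G : SimpleGraph V} {n : ℕ} {B : Finset V → Prop} (hS : ZH G n B)
    {Y : Type} [AddCommGroup Y]
    (hY : ∀ y : Y, y + y = 0) {τ : Finset V} (hτ : G.IsClique (τ : Set V))
    {f : Finset V → Y} (hf : ∀ t, f t ≠ 0 → G.IsClique (t : Set V) ∧ τ ⊆ t ∧ t.card = n)
    (h2 : ∀ t, τ ⊆ t → ∑ v ∈ tᶜ, f (insert v t) = 0) {A A' : Finset V} (h3 : τ ⊆ A)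
    (h4 : G.IsClique (A : Set V)) (h5 : A.card = n) (h3' : τ ⊆ A')
    (h4' : G.IsClique (A' : Set V)) (h5' : A'.card = n) : f A = f A' ∧ (B τ → f A = 0) := by
  classical
  letI : Module (ZMod 2) Y := AddCommGroup.zmodModule (fun y => by rw [two_nsmul]; exact hY y)
  set β' := Module.Basis.ofVectorSpace (ZMod 2) Y with hB
  have key : ∀ β, ∃ c, (B τ → c = 0) ∧ ∀ t : Finset V, G.IsClique (t : Set V) → τ ⊆ t →
      t.card = n → β'.repr (f t) β = c := by
    intro β
    refine hS.top τ hτ (fun t => β'.repr (f t) β) ?_ ?_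
    · intro t ht
      refine hf t fun h0 => ht ?_
      show β'.repr (f t) β = 0
      rw [h0, map_zero]
      rfl
    · intro t ht
      have h3 := congrArg (fun y => β'.repr y β) (h2 t ht)
      simp only [map_sum, map_zero, Finsupp.finsetSum_apply] at h3
      exact h3
  refine ⟨β'.ext_elem fun β => ?_, fun hb => β'.ext_elem fun β => ?_⟩
  · obtain ⟨c, _, hc⟩ := key β
    rw [hc A h4 h3 h5, hc A' h4' h3' h5']
  · obtain ⟨c, hc0, hc⟩ := key β
    rw [hc A h4 h3 h5, hc0 hb, map_zero]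
    rfl

private theorem slice {G : SimpleGraph V} {a b : ℕ} {w : Finset V → Finset V → Y}
    (hw : IsW G a b w) (h2 : e2 w = 0) (τ : Finset V) :
    (∀ t, w τ t ≠ 0 → G.IsClique (t : Set V) ∧ τ ⊆ t ∧ t.card = b) ∧
      ∀ t, τ ⊆ t → ∑ v ∈ tᶜ, w τ (insert v t) = 0 := by
  refine ⟨fun t ht => ?_, fun t ht => ?_⟩
  · obtain ⟨h3, h4, _, h6⟩ := hw τ t ht
    exact ⟨h4, h3, h6⟩
  · have h3 := congrFun (congrFun h2 τ) t
    unfold e2 at h3
    rw [if_pos ht] at h3
    exact h3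

/-- the rows are exact -/
private theorem row {G : SimpleGraph V} {n : ℕ} {B : Finset V → Prop} (hS : ZH G n B) {a b : ℕ} (hb : b < n)
    {w : Finset V → Finset V → Y} (hw : IsW G a b w) (h2 : e2 w = 0)
    (hY : ∀ y : Y, y + y = 0) : ∃ u : Finset V → Finset V → Y, IsW G a (b + 1) u ∧ e2 u = w := by
  classical
  have key : ∀ τ : Finset V, ∃ u : Finset V → Y,
      (∀ t, u t ≠ 0 → τ ⊆ t ∧ G.IsClique (t : Set V) ∧ τ.card = a ∧ t.card = b + 1) ∧
      ∀ t, τ ⊆ t → ∑ v ∈ tᶜ, u (insert v t) = w τ t := by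
    intro τ
    by_cases hτ : G.IsClique (τ : Set V) ∧ τ.card = a
    · obtain ⟨u, h3, h4⟩ := ext_low hS hY hτ.1 hb (slice hw h2 τ).1 (slice hw h2 τ).2
      refine ⟨u, fun t ht => ?_, h4⟩
      obtain ⟨h5, h6, h7⟩ := h3 t ht
      exact ⟨h6, h5, hτ.2, h7⟩
    · refine ⟨fun _ => 0, fun t ht => absurd rfl ht, fun t _ => ?_⟩
      rw [sum_const_zero]
      by_contra h0
      obtain ⟨h5, h6, h7, _⟩ := hw τ t (fun h => h0 h.symm)
      exact hτ ⟨h6.subset (by exact_mod_cast h5), h7⟩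
  choose u hu1 hu2 using key
  refine ⟨u, fun τ A h => hu1 τ A h, ?_⟩
  funext τ A
  unfold e2
  by_cases h : τ ⊆ A
  · rw [if_pos h, hu2 τ A h]
  · rw [if_neg h]
    by_contra h0
    exact h (hw τ A (fun h => h0 h.symm)).1

/-- the last row -/
private theorem row_top {G : SimpleGraph V} {n : ℕ} {B : Finset V → Prop} (hS : ZH G n B) {a : ℕ}
    {w : Finset V → Finset V → Y} (hw : IsW G a n w) (h2 : e2 w = 0) (hY : ∀ y : Y, y + y = 0) :
    ∃ a' : Finset V → Y, (∀ τ, a' τ ≠ 0 → G.IsClique (τ : Set V) ∧ τ.card = a) ∧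
      (∀ τ, B τ → a' τ = 0) ∧
      ∀ τ A : Finset V, τ ⊆ A → G.IsClique (A : Set V) → A.card = n → w τ A = a' τ := by
  classical
  have key : ∀ τ : Finset V, ∃ y : Y, (y ≠ 0 → G.IsClique (τ : Set V) ∧ τ.card = a) ∧
      (B τ → y = 0) ∧
      ∀ A : Finset V, τ ⊆ A → G.IsClique (A : Set V) → A.card = n → w τ A = y := by
    intro τ
    by_cases hτ : G.IsClique (τ : Set V) ∧ τ.card = a
    · obtain ⟨A₀, h3, h4, h5⟩ := hS.facet τ hτ.1
      refine ⟨w τ A₀, fun _ => hτ, ?_, fun A h6 h7 h8 => ?_⟩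
      · exact (ext_top hS hY hτ.1 (slice hw h2 τ).1 (slice hw h2 τ).2 h3 h4 h5 h3 h4 h5).2
      · exact (ext_top hS hY hτ.1 (slice hw h2 τ).1 (slice hw h2 τ).2 h6 h7 h8 h3 h4 h5).1
    · refine ⟨0, fun h => absurd rfl h, fun _ => rfl, fun A _ _ _ => ?_⟩
      by_contra h0
      obtain ⟨h5, h6, h7, _⟩ := hw τ A h0
      exact hτ ⟨h6.subset (by exact_mod_cast h5), h7⟩
  choose a' h3 h3' h4 using key
  exact ⟨a', h3, h3', h4⟩

private theorem sum_pairs {Y : Type} [AddCommGroup Y] (hY : ∀ y : Y, y + y = 0) (τ : Finset V)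
    (g : V → V → Y) (hg : ∀ u ∈ τ, ∀ v ∈ τ, g u v = g v u) :
    ∑ v ∈ τ, ∑ u ∈ τ.erase v, g v u = 0 := by
  classical
  rw [sum_sigma']
  refine sum_involution (fun x _ => ⟨x.2, x.1⟩) ?_ ?_ ?_ ?_
  · rintro ⟨v, u⟩ h
    rw [mem_sigma, mem_erase] at h
    show g v u + g u v = 0
    rw [hg v h.1 u h.2.2]
    exact hY _
  · rintro ⟨v, u⟩ h _ h0
    rw [mem_sigma, mem_erase] at h
    have h1 : u = v := congrArg Sigma.fst h0
    exact h.2.1 h1
  · rintro ⟨v, u⟩ h
    rw [mem_sigma, mem_erase] at h ⊢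
    exact ⟨h.2.2, fun h1 => h.2.1 h1.symm, h.1⟩
  · rintro ⟨v, u⟩ h
    rfl

private theorem e1_e1 {G : SimpleGraph V} {r : V → Y →ₗ[K] Y} (hY : ∀ y : Y, y + y = 0)
    (hcomm : ∀ u v, G.Adj u v → ∀ y, r u (r v y) = r v (r u y)) {a b : ℕ}
    {w : Finset V → Finset V → Y} (hw : IsW G a b w) : e1 r (e1 r w) = 0 := by
  classical
  funext τ A
  show (if τ ⊆ A then ∑ v ∈ τ, (e1 r w (τ.erase v) A + r v (e1 r w (τ.erase v) A)) else 0) = 0
  split_ifs with hτ
  swap
  · rfl
  by_cases hA : G.IsClique (A : Set V)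
  · have h1 : ∀ v ∈ τ, e1 r w (τ.erase v) A + r v (e1 r w (τ.erase v) A) =
        ∑ u ∈ τ.erase v, (w ((τ.erase v).erase u) A + r u (w ((τ.erase v).erase u) A) +
          (r v (w ((τ.erase v).erase u) A) + r v (r u (w ((τ.erase v).erase u) A)))) := by
      intro v _
      unfold e1
      rw [if_pos ((erase_subset _ _).trans hτ), map_sum, ← sum_add_distrib]
      refine sum_congr rfl fun u _ => ?_
      rw [map_add]
    rw [sum_congr rfl h1]
    refine sum_pairs hY τ (fun v u => w ((τ.erase v).erase u) A + r u (w ((τ.erase v).erase u) A) +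
          (r v (w ((τ.erase v).erase u) A) + r v (r u (w ((τ.erase v).erase u) A)))) ?_
    intro u hu v hv
    show w ((τ.erase u).erase v) A + r v (w ((τ.erase u).erase v) A) +
          (r u (w ((τ.erase u).erase v) A) + r u (r v (w ((τ.erase u).erase v) A))) =
        w ((τ.erase v).erase u) A + r u (w ((τ.erase v).erase u) A) +
          (r v (w ((τ.erase v).erase u) A) + r v (r u (w ((τ.erase v).erase u) A)))
    rw [erase_right_comm (a := v) (b := u)]
    by_cases huv : u = v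
    · rw [huv]
    · rw [hcomm u v (hA (hτ hu) (hτ hv) huv)]
      abel
  · have h0 : ∀ σ, w σ A = 0 := by
      intro σ
      by_contra h
      exact hA (hw σ A h).2.1
    have h1 : ∀ σ, e1 r w σ A = 0 := by
      intro σ
      unfold e1
      split_ifs
      · refine sum_eq_zero fun v _ => ?_
        rw [h0, map_zero, add_zero]
      · rfl
    refine sum_eq_zero fun v _ => ?_
    rw [h1, map_zero, add_zero]

private theorem e2_e1 (r : V → Y →ₗ[K] Y) (w : Finset V → Finset V → Y) :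
    e2 (e1 r w) = e1 r (e2 w) := by
  classical
  funext τ A
  show (if τ ⊆ A then ∑ v ∈ Aᶜ, e1 r w τ (insert v A) else 0) =
    if τ ⊆ A then ∑ v ∈ τ, (e2 w (τ.erase v) A + r v (e2 w (τ.erase v) A)) else 0
  split_ifs with hτ
  swap
  · rfl
  have h1 : ∀ v ∈ Aᶜ, e1 r w τ (insert v A) =
      ∑ u ∈ τ, (w (τ.erase u) (insert v A) + r u (w (τ.erase u) (insert v A))) := by
    intro v _
    unfold e1
    rw [if_pos (hτ.trans (subset_insert _ _))]
  have h2 : ∀ u ∈ τ, e2 w (τ.erase u) A + r u (e2 w (τ.erase u) A) =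
      ∑ v ∈ Aᶜ, (w (τ.erase u) (insert v A) + r u (w (τ.erase u) (insert v A))) := by
    intro u _
    unfold e2
    rw [if_pos ((erase_subset _ _).trans hτ), map_sum, ← sum_add_distrib]
  rw [sum_congr rfl h1, sum_congr rfl h2, sum_comm]

private theorem isW_e1 {G : SimpleGraph V} {r : V → Y →ₗ[K] Y} {a b : ℕ}
    {w : Finset V → Finset V → Y} (hw : IsW G a b w) : IsW G (a + 1) b (e1 r w) := by
  classical
  intro τ A h
  unfold e1 at h
  split_ifs at h with hτ
  · obtain ⟨v, hv, h1⟩ := exists_ne_zero_of_sum_ne_zero h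
    have h2 : w (τ.erase v) A ≠ 0 := by
      intro h0
      apply h1
      rw [h0, map_zero, add_zero]
    obtain ⟨_, h4, h5, h6⟩ := hw _ _ h2
    refine ⟨hτ, h4, ?_, h6⟩
    rw [← h5, card_erase_of_mem hv]
    have := card_pos.2 ⟨v, hv⟩
    omega
  · exact absurd rfl h

/-- **The zig-zag over a disc.** -/
theorem zigD {G : SimpleGraph V} {n : ℕ} {B : Finset V → Prop} (hS : ZH G n B) {r : V → Y →ₗ[K] Y}
    (hsq : ∀ v y, r v (r v y) = y) (hcomm : ∀ u v, G.Adj u v → ∀ y, r u (r v y) = r v (r u y))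
    {i : ℕ} (hi : i ≤ n) {z : Finset V → Y} (hz : z ∈ Pool.Agent.H77.SW.Zs K G i r) :
    ∃ (y w : ℕ → Finset V → Finset V → Y) (a : Finset V → Y),
      (∀ k ≤ n - i, IsW G k (i + k) (y k)) ∧ (∀ k < n - i, IsW G k (i + k + 1) (w k)) ∧
      (∀ A, y 0 ∅ A = z A) ∧ (∀ k < n - i, y k = e2 (w k)) ∧
      (∀ k < n - i, y (k + 1) = e1 r (w k)) ∧
      (∀ τ, a τ ≠ 0 → G.IsClique (τ : Set V) ∧ τ.card = n - i) ∧
      (∀ τ, B τ → a τ = 0) ∧
      (∀ τ A : Finset V, τ ⊆ A → G.IsClique (A : Set V) → A.card = n → y (n - i) τ A = a τ) ∧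
      ∀ τ : Finset V, G.IsClique (τ : Set V) →
        ∑ v ∈ τ, (a (τ.erase v) + r v (a (τ.erase v))) = 0 := by
  classical
  have hY : ∀ y : Y, y + y = 0 := by
    intro y
    have h1 : ((1 : K) + 1) • y = 0 := by
      rw [CharTwo.add_self_eq_zero, zero_smul]
    rwa [add_smul, one_smul] at h1
  obtain ⟨hz1, hz2, hz3⟩ := Pool.Agent.H77.SW.mem_Zs.1 hz
  have step : ∀ (k : ℕ) (y : Finset V → Finset V → Y), ∃ w : Finset V → Finset V → Y,
      k < n - i → (IsW G k (i + k) y ∧ e1 r y = 0 ∧ e2 y = 0) →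
        IsW G k (i + k + 1) w ∧ e2 w = y ∧
          (IsW G (k + 1) (i + (k + 1)) (e1 r w) ∧ e1 r (e1 r w) = 0 ∧ e2 (e1 r w) = 0) := by
    intro k y
    by_cases h : k < n - i ∧ (IsW G k (i + k) y ∧ e1 r y = 0 ∧ e2 y = 0)
    · obtain ⟨h1, h2, h3, h4⟩ := h
      obtain ⟨w, h5, h6⟩ := row hS (by omega : i + k < n) h2 h4 hY
      refine ⟨w, fun _ _ => ⟨h5, h6, isW_e1 h5, e1_e1 hY hcomm h5, ?_⟩⟩
      rw [e2_e1, h6, h3]
    · exact ⟨0, fun h1 h2 => absurd ⟨h1, h2⟩ h⟩
  choose F hF using step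
  let y : ℕ → Finset V → Finset V → Y := fun k =>
    Nat.rec (fun τ A => if τ = ∅ then z A else 0) (fun k yk => e1 r (F k yk)) k
  have y0 : y 0 = fun τ A => if τ = ∅ then z A else 0 := rfl
  have ys : ∀ k, y (k + 1) = e1 r (F k (y k)) := fun k => rfl
  have good : ∀ k ≤ n - i, IsW G k (i + k) (y k) ∧ e1 r (y k) = 0 ∧ e2 (y k) = 0 := by
    intro k
    induction k with
    | zero =>
      intro _
      refine ⟨?_, ?_, ?_⟩
      · intro τ A h
        rw [y0] at h
        have h' : (if τ = ∅ then z A else 0) ≠ 0 := h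
        split_ifs at h' with hτ
        · obtain ⟨h1, h2⟩ := hz1 A h'
          rw [hτ]
          exact ⟨empty_subset _, h1, card_empty, by rw [h2, add_zero]⟩
        · exact absurd rfl h'
      · funext τ A
        show (if τ ⊆ A then ∑ v ∈ τ, (y 0 (τ.erase v) A + r v (y 0 (τ.erase v) A)) else 0) = 0
        split_ifs with hτ
        · refine sum_eq_zero fun v hv => ?_
          have h1 : y 0 (τ.erase v) A = if τ.erase v = ∅ then z A else 0 := rfl
          rw [h1]
          split_ifs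
          · rw [hz2 A v (hτ hv)]
            exact hY _
          · rw [map_zero, add_zero]
        · rfl
      · funext τ A
        show (if τ ⊆ A then ∑ v ∈ Aᶜ, y 0 τ (insert v A) else 0) = 0
        split_ifs with hτ
        · by_cases h1 : τ = ∅
          · have h2 : ∀ v ∈ Aᶜ, y 0 τ (insert v A) = z (insert v A) := by
              intro v _
              show (if τ = ∅ then z (insert v A) else 0) = _
              rw [if_pos h1]
            rw [sum_congr rfl h2, hz3 A]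
          · refine sum_eq_zero fun v _ => ?_
            show (if τ = ∅ then z (insert v A) else 0) = _
            rw [if_neg h1]
        · rfl
    | succ k ih =>
      intro hk
      have h1 := hF k (y k) (by omega) (ih (by omega))
      rw [ys]
      exact h1.2.2
  obtain ⟨g1, g2, g3⟩ := good (n - i) le_rfl
  have g1' : IsW G (n - i) n (y (n - i)) := by
    have : i + (n - i) = n := by omega
    rwa [this] at g1
  obtain ⟨a, ha1, ha0, ha2⟩ := row_top hS g1' g3 hY
  refine ⟨y, fun k => F k (y k), a, fun k hk => (good k hk).1, fun k hk => ?_, fun A => ?_,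
    fun k hk => ?_, fun k _ => ys k, ha1, ha0, ha2, fun τ hτ => ?_⟩
  · exact (hF k (y k) hk (good k hk.le)).1
  · rw [y0]
    exact if_pos rfl
  · exact (hF k (y k) hk (good k hk.le)).2.1.symm
  · obtain ⟨A, h1, h2, h3⟩ := hS.facet τ hτ
    have h4 := congrFun (congrFun g2 τ) A
    unfold e1 at h4
    rw [if_pos h1] at h4
    refine Eq.trans (sum_congr rfl fun v _ => ?_) h4
    rw [ha2 (τ.erase v) A ((erase_subset _ _).trans h1) h2 h3]

end Pool.Agent.S9
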