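import Pool.Agent.S9.F.Du
import Pool.Agent.S9.F.Disc
import Pool.Agent.S9.F.ZigD

/-!
# Project S9, block F: duality for discs
-/

set_option autoImplicit false
set_option linter.unusedSectionVars false

open Finset

namespace Pool.Agent.S9

open Pool.Agent.H73.GC Pool.Agent.H19.SR Du

variable {V : Type} [DecidableEq V] [Fintype V] {G : SimpleGraph V} {W : Type} [Group W]

theorem IsDisc.zh {n : ℕ} {B : Finset V → Prop} (h : IsDisc G n B) : ZH G n B where
  facet := h.facet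
  low := h.low
  top s hs f h1 h2 := by
    by_cases hB : B s
    · refine ⟨0, fun _ => rfl, fun t _ _ _ => ?_⟩
      rw [h.bot s hB f h1 h2]
      rfl
    · obtain ⟨c, hc⟩ := (h.top s hs hB f h1).1 h2
      exact ⟨c, fun h' => absurd h' hB, hc⟩

/-- **Duality for discs**: the cochain `a` vanishes on the boundary -/
theorem dualD (R : Rac G W) {n : ℕ} {B : Finset V → Prop} (hS : IsDisc G n B) {Γ : Subgroup W}
    (hb : ∀ g ∈ Γ, ∀ v, R.b g v = 0) {F : Finset W} (hF : IsTr Γ F) {K : Type} [Field K] [CharP K 2]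
    {N : Type} [AddCommGroup N] [Module K N] (ρ : Γ →* Module.End K N) {i : ℕ} (hi : i ≤ n)
    {z : Finset V → W → N} (hz : z ∈ Zc R Γ ρ i) :
    ∃ a ∈ Cc R Γ ρ (n - i), cb R a = 0 ∧ (∀ τ, B τ → a τ = 0) ∧
      ∀ (χ : Γ →* Kˣ) (π : N →ₗ[K] K), (∀ g y, π (ρ g y) = (χ g : K) * π y) →
        ∀ x ∈ Cc R Γ (ch (χ⁻¹ ^ 2)) i, cb R x = 0 →
          PAIR G R F (fun A w => x A w * π (z A w) ^ 2) =
            INT G R F n (fun A w => ∑ τ ∈ A.powersetCard i,
              x τ w * π (a (A \ τ) (w * gp R.s τ)) ^ 2) := by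
  obtain ⟨y, w, a, h1, h2, h3, h4, h5, h6, h0, h7, h8⟩ :=
    zigD hS.zh (rt_sq Γ ρ R) (fun u v h => rt_comm Γ ρ R u v h) hi (mem_Zs' Γ ρ R hz)
  exact dual_core R hb hF ρ hi hz B ⟨y, w, a, h1, h2, h3, h4, h5, h6, h0, h7, h8⟩

end Pool.Agent.S9
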