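import Pool.Agent.S9.TLev

/-!
# Project S9: there is a right-angled Coxeter group

`rac_ex` is in `Pool.Agent.S9.TLev`.
-/
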