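import Pool.Agent.S9.Defs

/-!
# Project S9, block F: transversals, integrals, Stokes
-/

set_option autoImplicit false
set_option linter.unusedSectionVars false

open Finset

namespace Pool.Agent.S9

open Pool.Agent.H73.GC Pool.Agent.H19.SR

variable {V : Type} [DecidableEq V] [Fintype V] {G : SimpleGraph V} {W : Type} [Group W]

/-- `F` is a transversal of the cosets `Γ w` -/
def IsTr (Γ : Subgroup W) (F : Finset W) : Prop := ∀ w, ∃! p, p ∈ F ∧ w * p⁻¹ ∈ Γ

theorem tr_ex (Γ : Subgroup W) [Γ.FiniteIndex] : ∃ F : Finset W, IsTr Γ F := by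
  classical
  have : Finite (Quotient (QuotientGroup.rightRel Γ)) :=
    Finite.of_equiv _ (QuotientGroup.quotientRightRelEquivQuotientLeftRel Γ).symm
  have := Fintype.ofFinite (Quotient (QuotientGroup.rightRel Γ))
  refine ⟨univ.image (fun q : Quotient (QuotientGroup.rightRel Γ) => q.out), fun w => ?_⟩
  refine ⟨(Quotient.mk (QuotientGroup.rightRel Γ) w).out, ⟨mem_image_of_mem _ (mem_univ _), ?_⟩, ?_⟩
  · have h := Quotient.exact (Quotient.out_eq (Quotient.mk (QuotientGroup.rightRel Γ) w))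
    exact QuotientGroup.rightRel_apply.1 h
  · rintro p ⟨hp, h⟩
    obtain ⟨q, _, rfl⟩ := mem_image.1 hp
    have h1 : Quotient.mk (QuotientGroup.rightRel Γ) w = q := by
      rw [← Quotient.out_eq q]
      refine Quotient.sound ?_
      rw [← Quotient.out_eq q] at h
      have h2 : (QuotientGroup.rightRel Γ) q.out w := QuotientGroup.rightRel_apply.2 (by
        rwa [Quotient.out_eq] at h)
      exact (QuotientGroup.rightRel Γ).symm h2
    rw [h1]

theorem tr_sum {Γ : Subgroup W} {F : Finset W} (hF : IsTr Γ F) {M : Type} [AddCommMonoid M]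
    {f : W → M} (hf : ∀ g ∈ Γ, ∀ w, f (g * w) = f w) (u : W) :
    ∑ p ∈ F, f (p * u) = ∑ p ∈ F, f p := by
  classical
  choose φ hφ hu using fun w => (hF w)
  have inj : ∀ p ∈ F, ∀ q ∈ F, p * q⁻¹ ∈ Γ → p = q := by
    intro p hp q hq h
    have h1 := hu p p ⟨hp, by rw [mul_inv_cancel]; exact Γ.one_mem⟩
    have h2 := hu p q ⟨hq, h⟩
    exact h1.trans h2.symm
  refine sum_bij (fun p _ => φ (p * u)) (fun p _ => (hφ (p * u)).1) ?_ ?_ ?_
  · intro p hp q hq h
    refine inj p hp q hq ?_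
    have h1 := (hφ (p * u)).2
    have h2 := (hφ (q * u)).2
    have h3 : p * q⁻¹ = (p * u * (φ (p * u))⁻¹) * (q * u * (φ (q * u))⁻¹)⁻¹ := by
      have h' : φ (p * u) = φ (q * u) := h
      rw [h']
      group
    rw [h3]
    exact Γ.mul_mem h1 (Γ.inv_mem h2)
  · intro q hq
    refine ⟨φ (q * u⁻¹), (hφ _).1, ?_⟩
    refine (inj q hq _ (hφ _).1 ?_).symm
    have h1 := (hφ (q * u⁻¹)).2
    have h2 := (hφ (φ (q * u⁻¹) * u)).2
    have h3 : q * (φ (φ (q * u⁻¹) * u))⁻¹ =
        (q * u⁻¹ * (φ (q * u⁻¹))⁻¹) * (φ (q * u⁻¹) * u * (φ (φ (q * u⁻¹) * u))⁻¹) := by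
      group
    rw [h3]
    exact Γ.mul_mem h1 h2
  · intro p _
    have h1 := hf _ (hφ (p * u)).2 (φ (p * u))
    rw [inv_mul_cancel_right] at h1
    exact h1

/-- the sum over a transversal does not depend on the transversal; for normal `Γ` it is the sum over `W ⧸ Γ` -/
theorem tr_quot {Γ : Subgroup W} [Γ.Normal] [Fintype (W ⧸ Γ)] {F : Finset W} (hF : IsTr Γ F)
    {M : Type} [AddCommMonoid M] {f : W → M} (hf : ∀ g ∈ Γ, ∀ w, f (g * w) = f w) (t : W ⧸ Γ → W)
    (ht : ∀ q, (QuotientGroup.mk (t q) : W ⧸ Γ) = q) : ∑ q : W ⧸ Γ, f (t q) = ∑ p ∈ F, f p := by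
  classical
  have key : ∀ u w : W, (QuotientGroup.mk u : W ⧸ Γ) = QuotientGroup.mk w ↔ w * u⁻¹ ∈ Γ := by
    intro u w
    rw [QuotientGroup.eq]
    constructor
    · intro h
      have h1 := ‹Γ.Normal›.conj_mem _ h u
      have h2 : u * (u⁻¹ * w) * u⁻¹ = w * u⁻¹ := by group
      rwa [h2] at h1
    · intro h
      have h1 := ‹Γ.Normal›.conj_mem _ h u⁻¹
      have h2 : u⁻¹ * (w * u⁻¹) * u⁻¹⁻¹ = u⁻¹ * w := by group
      rwa [h2] at h1
  choose φ hφ hu using fun w => (hF w)
  refine sum_bij (fun q _ => φ (t q)) (fun q _ => (hφ (t q)).1) ?_ ?_ ?_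
  · intro q _ q' _ h
    rw [← ht q, ← ht q']
    have h1 := (key _ _).2 (hφ (t q)).2
    have h2 := (key _ _).2 (hφ (t q')).2
    have h' : φ (t q) = φ (t q') := h
    rw [← h1, ← h2, h']
  · intro p hp
    refine ⟨QuotientGroup.mk p, mem_univ _, ?_⟩
    refine (hu _ p ⟨hp, ?_⟩).symm
    exact (key _ _).1 (ht _).symm
  · intro q _
    have h1 := hf _ (hφ (t q)).2 (φ (t q))
    rw [inv_mul_cancel_right] at h1
    exact h1

section Bits

variable (R : Rac G W)

open Classical in
/-- the elements of `F` whose bits vanish on `A` -/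
noncomputable def bs (F : Finset W) (A : Finset V) : Finset W :=
  F.filter fun p => ∀ v ∈ A, R.b p v = 0

theorem mem_bs {F : Finset W} {A : Finset V} {p : W} :
    p ∈ bs R F A ↔ p ∈ F ∧ ∀ v ∈ A, R.b p v = 0 := by
  unfold bs
  rw [mem_filter]

theorem sum_bs {Γ : Subgroup W} {F : Finset W} (hF : IsTr Γ F) (hb : ∀ g ∈ Γ, ∀ v, R.b g v = 0)
    {M : Type} [AddCommMonoid M] {f : W → M} (hf : ∀ g ∈ Γ, ∀ w, f (g * w) = f w)
    {A : Finset V} {v : V} (hv : v ∉ A) :
    ∑ p ∈ bs R F A, f p = ∑ p ∈ bs R F (insert v A), (f p + f (p * R.s v)) := by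
  classical
  rw [sum_add_distrib, ← sum_filter_add_sum_filter_not (bs R F A) (fun p => R.b p v = 0)]
  congr 1
  · refine sum_congr ?_ fun _ _ => rfl
    ext p
    simp only [bs, mem_filter, mem_insert, forall_eq_or_imp]
    tauto
  · have e : ∀ (p : W) (u : V), R.b (p * R.s v) u = R.b p u + if v = u then 1 else 0 := by
      intro p u
      rw [R.b_mul, R.b_s]
    have h1 : ∑ p ∈ (bs R F A).filter (fun p => ¬ R.b p v = 0), f p =
        ∑ p ∈ F, if (∀ u ∈ A, R.b p u = 0) ∧ ¬ R.b p v = 0 then f p else 0 := by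
      rw [← sum_filter]
      refine sum_congr ?_ fun _ _ => rfl
      ext p
      simp only [bs, mem_filter]
      tauto
    have h2 : ∑ p ∈ bs R F (insert v A), f (p * R.s v) =
        ∑ p ∈ F, if (∀ u ∈ A, R.b (p * R.s v) u = 0) ∧ ¬ R.b (p * R.s v) v = 0 then
          f (p * R.s v) else 0 := by
      rw [← sum_filter]
      refine sum_congr ?_ fun _ _ => rfl
      ext p
      simp only [bs, mem_filter, mem_insert, forall_eq_or_imp]
      refine and_congr_right fun _ => ?_
      have h3 : (∀ u ∈ A, R.b (p * R.s v) u = 0) ↔ ∀ u ∈ A, R.b p u = 0 := by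
        refine forall₂_congr fun u hu => ?_
        rw [e, if_neg (fun h : v = u => hv (by rw [h]; exact hu)), add_zero]
      have h4 : (¬ R.b (p * R.s v) v = 0) ↔ R.b p v = 0 := by
        rw [e, if_pos rfl]
        have h5 : ∀ a : ZMod 2, ¬ a + 1 = 0 ↔ a = 0 := by decide
        exact h5 _
      rw [h3, h4]
      tauto
    rw [h1, h2]
    refine (tr_sum hF (f := fun p => if (∀ u ∈ A, R.b p u = 0) ∧ ¬ R.b p v = 0 then f p else 0)
      ?_ (R.s v)).symm
    intro g hg w
    have h3 : ∀ u, R.b (g * w) u = R.b w u := fun u => by rw [R.b_mul, hb g hg, zero_add]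
    simp only [h3, hf g hg]

open Classical in
/-- the integral over the top dimensional cells of one transversal -/
noncomputable def INT (G : SimpleGraph V) (R : Rac G W) (F : Finset W) (n : ℕ) {M : Type}
    [AddCommMonoid M] (f : Finset V → W → M) : M :=
  ∑ A ∈ (univ : Finset (Finset V)).filter
    (fun A : Finset V => G.IsClique (A : Set V) ∧ A.card = n), ∑ p ∈ bs R F A, f A p

theorem INT_add (F : Finset W) (n : ℕ) {M : Type} [AddCommMonoid M] (f f' : Finset V → W → M) :
    INT G R F n (fun A w => f A w + f' A w) = INT G R F n f + INT G R F n f' := by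
  unfold INT
  simp only [sum_add_distrib]

theorem INT_congr (F : Finset W) (n : ℕ) {M : Type} [AddCommMonoid M] {f f' : Finset V → W → M}
    (h : ∀ A : Finset V, G.IsClique (A : Set V) → A.card = n → ∀ p, (∀ v ∈ A, R.b p v = 0) →
      f A p = f' A p) : INT G R F n f = INT G R F n f' := by
  classical
  unfold INT
  refine sum_congr rfl fun A hA => sum_congr rfl fun p hp => ?_
  obtain ⟨h1, h2⟩ := (mem_filter.1 hA).2
  exact h A h1 h2 p ((mem_bs R).1 hp).2

theorem INT_zero (F : Finset W) (n : ℕ) {M : Type} [AddCommMonoid M] {f : Finset V → W → M}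
    (h : ∀ A : Finset V, G.IsClique (A : Set V) → A.card = n → ∀ p, (∀ v ∈ A, R.b p v = 0) →
      f A p = 0) : INT G R F n f = 0 := by
  classical
  unfold INT
  refine sum_eq_zero fun A hA => sum_eq_zero fun p hp => ?_
  obtain ⟨h1, h2⟩ := (mem_filter.1 hA).2
  exact h A h1 h2 p ((mem_bs R).1 hp).2

open Classical in
/-- the sum over all cells of one transversal -/
noncomputable def PAIR (G : SimpleGraph V) (R : Rac G W) (F : Finset W) {M : Type}
    [AddCommMonoid M] (f : Finset V → W → M) : M :=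
  ∑ A ∈ (univ : Finset (Finset V)).filter
    (fun A : Finset V => G.IsClique (A : Set V)), ∑ p ∈ bs R F A, f A p

private theorem clique_sub {A B : Finset V} (h : G.IsClique (A : Set V))
    (hB : B ⊆ A) : G.IsClique (B : Set V) := h.subset (by exact_mod_cast hB)

/-- **Stokes** -/
theorem stokes {n : ℕ} (hS : IsSph G n) {Γ : Subgroup W} {F : Finset W} (hF : IsTr Γ F)
    (hb : ∀ g ∈ Γ, ∀ v, R.b g v = 0) {M : Type} [AddCommGroup M] (hM : ∀ y : M, y + y = 0)
    (ξ : Finset V → W → M) (hξ : ∀ B, ∀ g ∈ Γ, ∀ w, ξ B (g * w) = ξ B w) :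
    INT G R F n (fun A w => ∑ v ∈ A, (ξ (A.erase v) w + ξ (A.erase v) (w * R.s v))) = 0 := by
  classical
  unfold INT
  have h1 : ∀ A : Finset V, ∑ p ∈ bs R F A, ∑ v ∈ A, (ξ (A.erase v) p +
      ξ (A.erase v) (p * R.s v)) = ∑ v ∈ A, ∑ p ∈ bs R F (A.erase v), ξ (A.erase v) p := by
    intro A
    rw [sum_comm]
    refine sum_congr rfl fun v hv => ?_
    rw [sum_bs R hF hb (hξ _) (notMem_erase v A), insert_erase hv]
  rw [sum_congr rfl fun A _ => h1 A, sum_sigma']
  have h2 : (∑ x ∈ ((univ : Finset (Finset V)).filter (fun A : Finset V =>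
        G.IsClique (A : Set V) ∧ A.card = n)).sigma (fun A : Finset V => A),
        (∑ p ∈ bs R F (x.1.erase x.2), ξ (x.1.erase x.2) p : M)) =
      ∑ B : Finset V, ∑ v ∈ Bᶜ.filter (fun v => G.IsClique ((insert v B : Finset V) : Set V) ∧
        (insert v B).card = n), ∑ p ∈ bs R F B, ξ B p := by
    conv_rhs => rw [sum_sigma']
    refine sum_bij' (fun x _ => ⟨x.1.erase x.2, x.2⟩) (fun x _ => ⟨insert x.2 x.1, x.2⟩)
      ?_ ?_ ?_ ?_ ?_
    · rintro ⟨A, v⟩ h
      simp only [mem_filter, mem_sigma, mem_univ, true_and, mem_compl] at h ⊢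
      refine ⟨notMem_erase _ _, ?_⟩
      rw [insert_erase h.2]
      exact h.1
    · rintro ⟨A, v⟩ h
      simp only [mem_filter, mem_sigma, mem_univ, true_and, mem_compl] at h ⊢
      exact ⟨h.2, mem_insert_self _ _⟩
    · rintro ⟨A, v⟩ h
      simp only [mem_filter, mem_sigma, mem_univ, true_and] at h
      simp only [insert_erase h.2]
    · rintro ⟨A, v⟩ h
      simp only [mem_filter, mem_sigma, mem_univ, true_and, mem_compl] at h
      simp only [erase_insert h.1]
    · rintro ⟨A, v⟩ h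
      rfl
  rw [h2]
  refine sum_eq_zero fun B _ => ?_
  rw [sum_const]
  have h3 : ((Bᶜ.filter (fun v => G.IsClique ((insert v B : Finset V) : Set V) ∧
        (insert v B).card = n)).card : ZMod 2) = 0 := by
    by_cases hB : G.IsClique (B : Set V)
    · have h4 := (hS.top B hB (fun t => if G.IsClique (t : Set V) ∧ B ⊆ t ∧ t.card = n then 1
        else 0) (fun t ht => by
          by_contra h5
          exact ht (if_neg h5))).2 ⟨1, fun t h5 h6 h7 => if_pos ⟨h5, h6, h7⟩⟩ B Subset.rfl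
      rw [card_eq_sum_ones, Nat.cast_sum, sum_filter]
      refine Eq.trans (sum_congr rfl fun v _ => ?_) h4
      by_cases h5 : G.IsClique ((insert v B : Finset V) : Set V) ∧ (insert v B).card = n
      · rw [if_pos h5, if_pos ⟨h5.1, subset_insert _ _, h5.2⟩]
        exact Nat.cast_one
      · rw [if_neg h5, if_neg (fun h6 => h5 ⟨h6.1, h6.2.2⟩)]
    · rw [filter_eq_empty_iff.2, card_empty, Nat.cast_zero]
      intro v _ h4
      exact hB (clique_sub h4.1 (subset_insert _ _))
  have h4 : Even (Bᶜ.filter (fun v => G.IsClique ((insert v B : Finset V) : Set V) ∧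
        (insert v B).card = n)).card := by
    rw [even_iff_two_dvd]
    exact (ZMod.natCast_eq_zero_iff _ _).1 h3
  obtain ⟨m, hm⟩ := h4
  rw [hm, add_smul]
  exact hM _

end Bits

end Pool.Agent.S9
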